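import Mathlib

/-!
Planar difference sets: closed subgroups (subplanes), the bound of Bruck, Baer involutions and
the multiplier theorem of Hall.
-/

set_option autoImplicit false

namespace Pool.Agent.P.MP_8571ba_co

open Finset
open scoped Classical

variable {G : Type*} [AddCommGroup G]

/-- Every nonzero element is a difference of two members of `D` in exactly one way. -/
def IsPDS (D : Finset G) : Prop :=
  ∀ x : G, x ≠ 0 → ∃! q : G × G, q.1 ∈ D ∧ q.2 ∈ D ∧ q.1 - q.2 = x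

/-- The representation of a nonzero element of `H` stays inside `H`. -/
def Closed (D : Finset G) (H : AddSubgroup G) : Prop :=
  ∀ d ∈ D, ∀ d' ∈ D, d ≠ d' → d - d' ∈ H → d ∈ H

/-- The number of points of `D` in `H`, minus one. -/
noncomputable def ord (D : Finset G) (H : AddSubgroup G) : ℤ := (#{d ∈ D | d ∈ H} : ℤ) - 1

/-- The fixed points of an endomorphism. -/
def fixG (σ : G →+ G) : AddSubgroup G := σ.eqLocus (AddMonoidHom.id G)

theorem mem_fixG {σ : G →+ G} {x : G} : x ∈ fixG σ ↔ σ x = x := Iff.rfl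

variable {D : Finset G}

theorem IsPDS.uniq (hD : IsPDS D) {a b c d : G} (ha : a ∈ D) (hb : b ∈ D) (hc : c ∈ D)
    (hd : d ∈ D) (hab : a ≠ b) (h : a - b = c - d) : a = c ∧ b = d := by
  obtain ⟨q, -, hq⟩ := hD (a - b) (sub_ne_zero.2 hab)
  have h1 := hq (a, b) ⟨ha, hb, rfl⟩
  have h2 := hq (c, d) ⟨hc, hd, h.symm⟩
  exact Prod.mk.inj (h1.trans h2.symm)

theorem IsPDS.ex (hD : IsPDS D) {x : G} (hx : x ≠ 0) : ∃ a ∈ D, ∃ b ∈ D, a - b = x := by
  obtain ⟨q, ⟨h1, h2, h3⟩, -⟩ := hD x hx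
  exact ⟨q.1, h1, q.2, h2, h3⟩

theorem Closed.right {H : AddSubgroup G} (hH : Closed D H) {d d' : G} (hd : d ∈ D) (hd' : d' ∈ D)
    (hne : d ≠ d') (h : d - d' ∈ H) : d' ∈ H :=
  hH d' hd' d hd hne.symm (by simpa using H.neg_mem h)

theorem closed_top : Closed D ⊤ := fun _ _ _ _ _ _ => trivial

theorem Closed.inf {H K : AddSubgroup G} (hH : Closed D H) (hK : Closed D K) :
    Closed D (H ⊓ K) := fun d hd d' hd' hne h =>
  ⟨hH d hd d' hd' hne h.1, hK d hd d' hd' hne h.2⟩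

theorem closed_fixG (hD : IsPDS D) {σ : G →+ G} (hσ : ∀ d ∈ D, σ d ∈ D) : Closed D (fixG σ) := by
  intro d hd d' hd' hne h
  rw [mem_fixG, map_sub] at h
  exact (hD.uniq hd hd' (hσ d hd) (hσ d' hd') hne h.symm).1.symm

theorem ord_top : ord D ⊤ = (#D : ℤ) - 1 := by simp [ord]

theorem neg_one_le_ord (H : AddSubgroup G) : -1 ≤ ord D H := by
  unfold ord; omega

variable [Fintype G]

theorem card_eq_filter (H : AddSubgroup G) : Nat.card H = #{x : G | x ∈ H} := by
  rw [Nat.card_eq_fintype_card, Fintype.card_subtype]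

/-- A closed subgroup has order `m ^ 2 + m + 1`. -/
theorem Closed.card (hD : IsPDS D) {H : AddSubgroup G} (hH : Closed D H) :
    (Nat.card H : ℤ) = ord D H ^ 2 + ord D H + 1 := by
  have h1 : #(({d ∈ D | d ∈ H} : Finset G).offDiag) = #(({x : G | x ∈ H} : Finset G).erase 0) := by
    refine card_bij (fun q _ => q.1 - q.2) ?_ ?_ ?_
    · intro q hq
      obtain ⟨h1, h2, h3⟩ := mem_offDiag.1 hq
      exact mem_erase.2 ⟨sub_ne_zero.2 h3, mem_filter.2 ⟨mem_univ _,
        H.sub_mem (mem_filter.1 h1).2 (mem_filter.1 h2).2⟩⟩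
    · intro q hq q' hq' h
      obtain ⟨h1, h2, h3⟩ := mem_offDiag.1 hq
      obtain ⟨h4, h5, -⟩ := mem_offDiag.1 hq'
      obtain ⟨e1, e2⟩ := hD.uniq (mem_filter.1 h1).1 (mem_filter.1 h2).1 (mem_filter.1 h4).1
        (mem_filter.1 h5).1 h3 h
      exact Prod.ext e1 e2
    · intro x hx
      obtain ⟨hx0, hx⟩ := mem_erase.1 hx
      have hxH := (mem_filter.1 hx).2
      obtain ⟨a, ha, b, hb, rfl⟩ := hD.ex hx0
      have hne : a ≠ b := sub_ne_zero.1 hx0
      exact ⟨(a, b), mem_offDiag.2 ⟨mem_filter.2 ⟨ha, hH a ha b hb hne hxH⟩,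
        mem_filter.2 ⟨hb, hH.right ha hb hne hxH⟩, hne⟩, rfl⟩
  have h0 : (0 : G) ∈ ({x : G | x ∈ H} : Finset G) := mem_filter.2 ⟨mem_univ _, H.zero_mem⟩
  have h2 := card_erase_add_one h0
  rw [offDiag_card] at h1
  rw [card_eq_filter, ← h2, ← h1, ord]
  have h3 : #{d ∈ D | d ∈ H} ≤ #{d ∈ D | d ∈ H} * #{d ∈ D | d ∈ H} := Nat.le_mul_self _
  push_cast [h3]
  ring

/-- The bound of Bruck for a proper subplane. -/
theorem bruck (hD : IsPDS D) {H K : AddSubgroup G} (hH : Closed D H) (hK : Closed D K)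
    (hle : H ≤ K) {x : G} (hxK : x ∈ K) (hxH : x ∉ H) (h0 : 0 ≤ ord D H) :
    ord D H ^ 2 ≤ ord D K := by
  set DK : Finset G := {d ∈ D | d ∈ K} with hDK
  set A : Finset (G × G) := {q ∈ DK ×ˢ DK | q.1 - q.2 - x ∈ H} with hA
  have h1 : #{y : G | y ∈ H} ≤ #A := by
    refine card_le_card_of_surjOn (fun q => q.1 - q.2 - x) ?_
    intro y hy
    have hyH : y ∈ H := (mem_filter.1 hy).2
    have hne : x + y ≠ 0 := fun h => hxH (by
      rw [eq_neg_of_add_eq_zero_left h]; exact H.neg_mem hyH)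
    obtain ⟨a, ha, b, hb, hab⟩ := hD.ex hne
    have hab' : a ≠ b := sub_ne_zero.1 (hab ▸ hne)
    have hK' : a - b ∈ K := hab ▸ K.add_mem hxK (hle hyH)
    refine ⟨(a, b), ?_, by simp [hab]⟩
    refine mem_coe.2 (mem_filter.2 ⟨mem_product.2 ⟨mem_filter.2 ⟨ha, hK a ha b hb hab' hK'⟩,
      mem_filter.2 ⟨hb, hK.right ha hb hab' hK'⟩⟩, ?_⟩)
    simpa [hab] using hyH
  have h2 : #A = ∑ b ∈ DK, #{a ∈ DK | a - b - x ∈ H} := by
    rw [hA, card_filter, sum_product_right]
    exact sum_congr rfl fun b _ => (card_filter _ _).symm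
  have h3 : ∀ b ∈ DK, (#{a ∈ DK | a - b - x ∈ H} : ℤ) ≤
      1 + if b + x ∈ H then ord D H else 0 := by
    intro b _
    split_ifs with hb
    · have : #{a ∈ DK | a - b - x ∈ H} ≤ #{d ∈ D | d ∈ H} := by
        refine card_le_card fun a ha => ?_
        obtain ⟨ha1, ha2⟩ := mem_filter.1 ha
        refine mem_filter.2 ⟨(mem_filter.1 ha1).1, ?_⟩
        have := H.add_mem ha2 hb
        simpa using this
      unfold ord; omega
    · have : #{a ∈ DK | a - b - x ∈ H} ≤ 1 := by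
        refine card_le_one.2 fun a ha a' ha' => ?_
        by_contra hne
        obtain ⟨ha1, ha2⟩ := mem_filter.1 ha
        obtain ⟨ha3, ha4⟩ := mem_filter.1 ha'
        have h5 : a - a' ∈ H := by simpa using H.sub_mem ha2 ha4
        have h6 := hH a (mem_filter.1 ha1).1 a' (mem_filter.1 ha3).1 hne h5
        apply hb
        have := H.sub_mem h6 ha2
        rwa [show a - (a - b - x) = b + x by abel] at this
      omega
  have h4 : #{b ∈ DK | b + x ∈ H} ≤ 1 := by
    refine card_le_one.2 fun b hb b' hb' => ?_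
    by_contra hne
    obtain ⟨ha1, ha2⟩ := mem_filter.1 hb
    obtain ⟨ha3, ha4⟩ := mem_filter.1 hb'
    have h5 : b - b' ∈ H := by simpa using H.sub_mem ha2 ha4
    have h6 := hH b (mem_filter.1 ha1).1 b' (mem_filter.1 ha3).1 hne h5
    apply hxH
    simpa using H.sub_mem ha2 h6
  have h5 : (#A : ℤ) ≤ #DK + ord D H := by
    rw [h2]
    push_cast
    refine (sum_le_sum h3).trans ?_
    rw [sum_add_distrib, ← sum_filter, sum_const, sum_const, nsmul_eq_mul, nsmul_eq_mul, mul_one]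
    have : (#{b ∈ DK | b + x ∈ H} : ℤ) ≤ 1 := by exact_mod_cast h4
    nlinarith
  have h6 := hH.card hD
  rw [card_eq_filter] at h6
  have h7 : ord D K = (#DK : ℤ) - 1 := rfl
  have h8 : (#{y : G | y ∈ H} : ℤ) ≤ #A := by exact_mod_cast h1
  linarith

/-- An involution of a subplane fixes all of it or a Baer subplane. -/
theorem baer (hD : IsPDS D) {H : AddSubgroup G} (hH : Closed D H) {σ : G →+ G}
    (hσ : ∀ d ∈ D, σ d ∈ D) (hσH : ∀ x ∈ H, σ x ∈ H) (h2 : ∀ x ∈ H, σ (σ x) = x) :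
    ord D H = ord D (H ⊓ fixG σ) ∨ ord D H = ord D (H ⊓ fixG σ) ^ 2 := by
  set φ : H →+ G := (AddMonoidHom.id G - σ).comp H.subtype with hφ
  have φa : ∀ x : H, φ x = (x : G) - σ x := fun x => rfl
  have c1 : Nat.card φ.ker * Nat.card φ.range = Nat.card H := by
    rw [← AddSubgroup.index_ker, AddSubgroup.card_mul_index]
  have c2 : Nat.card φ.ker = Nat.card (H ⊓ fixG σ : AddSubgroup G) := by
    refine Nat.card_congr ⟨fun x => ⟨x.1.1, x.1.2, ?_⟩, fun y => ⟨⟨y.1, y.2.1⟩, ?_⟩,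
      fun _ => rfl, fun _ => rfl⟩
    · have := x.2
      rw [AddMonoidHom.mem_ker, φa, sub_eq_zero] at this
      exact this.symm
    · rw [AddMonoidHom.mem_ker, φa, sub_eq_zero]
      exact (y.2.2 : σ y.1 = y.1).symm
  have c8 := (hH.inf (closed_fixG hD hσ)).card hD
  obtain ⟨W, hW⟩ : ∃ W : AddSubgroup G, W = φ.range := ⟨_, rfl⟩
  obtain ⟨F, hF⟩ : ∃ F : AddSubgroup G, F = H ⊓ fixG σ := ⟨_, rfl⟩
  rw [← hW] at c1
  rw [← hF] at c2 c8 ⊢
  have mF : ∀ x, x ∈ F ↔ x ∈ H ∧ σ x = x := fun x => by rw [hF]; rfl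
  have mW : ∀ y, y ∈ W ↔ ∃ z : H, (z : G) - σ z = y := fun y => by rw [hW]; rfl
  have c3 : #(({d ∈ D | d ∈ H} : Finset G) \ {d ∈ D | d ∈ F}) =
      #(({x : G | x ∈ W} : Finset G).erase 0) := by
    refine card_bij (fun d _ => d - σ d) ?_ ?_ ?_
    · intro d hd
      obtain ⟨h1, h3⟩ := mem_sdiff.1 hd
      obtain ⟨h4, h5⟩ := mem_filter.1 h1
      refine mem_erase.2 ⟨fun h => h3 (mem_filter.2 ⟨h4, (mF d).2 ⟨h5, (sub_eq_zero.1 h).symm⟩⟩), ?_⟩
      exact mem_filter.2 ⟨mem_univ _, (mW _).2 ⟨⟨d, h5⟩, rfl⟩⟩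
    · intro d hd d' hd' h
      obtain ⟨h1, h3⟩ := mem_sdiff.1 hd
      obtain ⟨h4, h5⟩ := mem_filter.1 h1
      have h6 := (mem_filter.1 (mem_sdiff.1 hd').1).1
      refine (hD.uniq h4 (hσ d h4) h6 (hσ d' h6) (fun e => h3 ?_) h).1
      exact mem_filter.2 ⟨h4, (mF d).2 ⟨h5, e.symm⟩⟩
    · intro y hy
      obtain ⟨hy0, hy⟩ := mem_erase.1 hy
      obtain ⟨z, hz⟩ := (mW y).1 (mem_filter.1 hy).2
      have hyH : y ∈ H := hz ▸ H.sub_mem z.2 (hσH _ z.2)
      have hneg : σ y = -y := by rw [← hz, map_sub, h2 _ z.2, neg_sub]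
      obtain ⟨a, ha, b, hb, hab⟩ := hD.ex hy0
      have hne : a ≠ b := sub_ne_zero.1 (hab ▸ hy0)
      have e : b = σ a := by
        refine (hD.uniq hb ha (hσ a ha) (hσ b hb) hne.symm ?_).1
        rw [← map_sub, hab, hneg, ← hab, neg_sub]
      refine ⟨a, mem_sdiff.2 ⟨mem_filter.2 ⟨ha, hH a ha b hb hne (hab ▸ hyH)⟩, fun h => hne ?_⟩,
        by rw [← e, hab]⟩
      rw [e]; exact ((mF a).1 (mem_filter.1 h).2).2.symm
  have h0 : (0 : G) ∈ ({x : G | x ∈ W} : Finset G) := mem_filter.2 ⟨mem_univ _, W.zero_mem⟩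
  have c4 := card_erase_add_one h0
  have sub : ({d ∈ D | d ∈ F} : Finset G) ⊆ {d ∈ D | d ∈ H} := fun d hd =>
    mem_filter.2 ⟨(mem_filter.1 hd).1, ((mF d).1 (mem_filter.1 hd).2).1⟩
  have c5 := card_sdiff_add_card_eq_card sub
  have c6 : (Nat.card W : ℤ) = ord D H - ord D F + 1 := by
    rw [card_eq_filter, ← c4, ← c3, ord, ord, ← c5]
    push_cast; ring
  have c7 := hH.card hD
  have c9 : (Nat.card φ.ker : ℤ) * Nat.card W = Nat.card H := by exact_mod_cast c1
  rw [c2, c6, c7, c8] at c9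
  have : (ord D H - ord D F) * (ord D H - ord D F ^ 2) = 0 := by
    linear_combination -c9
  rcases mul_eq_zero.1 this with h | h
  · left; linarith
  · right; linarith

omit [Fintype G] in
/-- A set of `#D` points that meets every translate of `D` is a translate of `D`. -/
theorem blocking (hD : IsPDS D) {E : Finset G} (hc : #E = #D) (h2 : 2 ≤ #D)
    (hE : ∀ g : G, ∃ e ∈ E, e - g ∈ D) : ∃ g : G, E = D.image (fun d => d + g) := by
  have key : ∀ x ∉ E, ∀ d ∈ D, #{e ∈ E | e - (x - d) ∈ D} = 1 := by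
    intro x hx
    have s1 : ∑ d ∈ D, #{e ∈ E | e - (x - d) ∈ D} = ∑ e ∈ E, #{d ∈ D | e - (x - d) ∈ D} := by
      simp only [card_filter]
      exact sum_comm
    have s2 : ∀ e ∈ E, #{d ∈ D | e - (x - d) ∈ D} ≤ 1 := by
      intro e he
      refine card_le_one.2 fun d hd d' hd' => ?_
      obtain ⟨h1, h3⟩ := mem_filter.1 hd
      obtain ⟨h4, h5⟩ := mem_filter.1 hd'
      refine (hD.uniq h3 h1 h5 h4 (fun h => hx ?_) (by abel)).2
      have : e = x := by
        have h6 : e - x = 0 := by rw [← sub_eq_zero.2 h]; abel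
        exact sub_eq_zero.1 h6
      exact this ▸ he
    have s3 : ∑ d ∈ D, #{e ∈ E | e - (x - d) ∈ D} ≤ ∑ d ∈ D, 1 := by
      rw [s1]
      refine (sum_le_sum s2).trans ?_
      simp [hc]
    have s4 : ∀ d ∈ D, 1 ≤ #{e ∈ E | e - (x - d) ∈ D} := fun d _ => by
      obtain ⟨e, he, h⟩ := hE (x - d)
      exact card_pos.2 ⟨e, mem_filter.2 ⟨he, h⟩⟩
    intro d hd
    exact ((sum_eq_sum_iff_of_le s4).1 (le_antisymm (sum_le_sum s4) s3) d hd).symm
  obtain ⟨e, he, e', he', hne⟩ := one_lt_card.1 (show 1 < #E by omega)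
  obtain ⟨a, ha, b, hb, hab⟩ := hD.ex (sub_ne_zero.2 hne)
  refine ⟨e - a, (eq_of_subset_of_card_le (fun x hx => ?_) ?_).symm⟩
  · obtain ⟨d, hd, rfl⟩ := mem_image.1 hx
    by_contra hx
    have h1 := key _ hx d hd
    have h3 : 1 < #{f ∈ E | f - (d + (e - a) - d) ∈ D} := by
      refine one_lt_card.2 ⟨e, mem_filter.2 ⟨he, ?_⟩, e', mem_filter.2 ⟨he', ?_⟩, hne⟩
      · simpa using ha
      · rw [show e' - (d + (e - a) - d) = a - (e - e') by abel, ← hab]
        simpa using hb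
    omega
  · rw [card_image_of_injective _ (add_left_injective _), hc]

/-- The congruence behind the multiplier theorem. -/
theorem meets (hD : IsPDS D) {p : ℕ} (hp : p.Prime) (hc : ((#D : ℕ) : ZMod p) = 1) (g : G) :
    ∃ d ∈ D, p • d - g ∈ D := by
  have := Fact.mk hp
  have : CharP (AddMonoidAlgebra (ZMod p) G) p :=
    charP_of_injective_algebraMap (algebraMap (ZMod p) (AddMonoidAlgebra (ZMod p) G)).injective p
  let s : G → AddMonoidAlgebra (ZMod p) G := fun x => AddMonoidAlgebra.single x 1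
  have smul : ∀ x y, s x * s y = s (x + y) := fun x y => by
    simp only [s, AddMonoidAlgebra.single_mul_single, mul_one]
  let a : AddMonoidAlgebra (ZMod p) G := ∑ d ∈ D, s d
  let b : AddMonoidAlgebra (ZMod p) G := ∑ d ∈ D, s (-d)
  let J : AddMonoidAlgebra (ZMod p) G := ∑ x : G, s x
  have cD : ((#D : ℕ) : AddMonoidAlgebra (ZMod p) G) = 1 := by
    rw [← map_natCast (algebraMap (ZMod p) (AddMonoidAlgebra (ZMod p) G)), hc, map_one]
  have aJ : a * J = J := by
    have : ∀ d, s d * J = J := fun d => by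
      rw [mul_sum]
      exact Fintype.sum_equiv (Equiv.addLeft d) _ _ fun x => smul d x
    rw [sum_mul, sum_congr rfl fun d _ => this d, sum_const, nsmul_eq_mul, cD, one_mul]
  have ab : a * b = J := by
    have e1 : a * b = ∑ q ∈ D ×ˢ D, s (q.1 - q.2) := by
      rw [sum_mul_sum, sum_product]
      exact sum_congr rfl fun d _ => sum_congr rfl fun d' _ => by rw [smul, sub_eq_add_neg]
    have e2 : ∑ q ∈ D.offDiag, s (q.1 - q.2) = ∑ x ∈ (univ : Finset G).erase 0, s x := by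
      refine sum_bij (fun q _ => q.1 - q.2) ?_ ?_ ?_ fun _ _ => rfl
      · intro q hq
        exact mem_erase.2 ⟨sub_ne_zero.2 (mem_offDiag.1 hq).2.2, mem_univ _⟩
      · intro q hq q' hq' h
        obtain ⟨h1, h2, h3⟩ := mem_offDiag.1 hq
        obtain ⟨h4, h5, -⟩ := mem_offDiag.1 hq'
        obtain ⟨e1, e2⟩ := hD.uniq h1 h2 h4 h5 h3 h
        exact Prod.ext e1 e2
      · intro x hx
        obtain ⟨u, hu, w, hw, rfl⟩ := hD.ex (mem_erase.1 hx).1
        exact ⟨(u, w), mem_offDiag.2 ⟨hu, hw, sub_ne_zero.1 (mem_erase.1 hx).1⟩, rfl⟩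
    rw [e1, ← diag_union_offDiag, sum_union (disjoint_diag_offDiag D), e2, sum_diag]
    simp only [sub_self, sum_const, nsmul_eq_mul, cD, one_mul]
    exact add_sum_erase _ _ (mem_univ _)
  have apJ : ∀ k : ℕ, a ^ k * J = J := fun k => by
    induction k with
    | zero => simp
    | succ k ih => rw [pow_succ, mul_assoc, aJ, ih]
  have ap : a ^ p = ∑ d ∈ D, s (p • d) := by
    rw [sum_pow_char]
    exact sum_congr rfl fun d _ => by simp only [s, AddMonoidAlgebra.single_pow, one_pow]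
  have fin : ∑ d ∈ D, ∑ d' ∈ D, s (p • d - d') = J := by
    have e1 : a ^ p * b = J := by
      obtain ⟨k, hk⟩ : ∃ k, p = k + 1 := ⟨p - 1, by have := hp.pos; omega⟩
      have : a ^ p = a ^ k * a := by rw [← pow_succ, ← hk]
      rw [this, mul_assoc, ab, apJ]
    rw [← e1, ap, sum_mul_sum]
    exact sum_congr rfl fun d _ => sum_congr rfl fun d' _ => by rw [smul, sub_eq_add_neg]
  by_contra hno
  push Not at hno
  have c1 : J.coeff g = 1 := by
    simp only [J, s, AddMonoidAlgebra.coeff_sum, Finsupp.finsetSum_apply,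
      AddMonoidAlgebra.coeff_single, Finsupp.single_apply]
    simp
  have c2 : (∑ d ∈ D, ∑ d' ∈ D, s (p • d - d')).coeff g = 0 := by
    simp only [s, AddMonoidAlgebra.coeff_sum, Finsupp.finsetSum_apply,
      AddMonoidAlgebra.coeff_single, Finsupp.single_apply]
    refine sum_eq_zero fun d hd => sum_eq_zero fun d' hd' => if_neg fun h => hno d hd ?_
    rw [← h]; simpa using hd'
  rw [fin, c1] at c2
  exact one_ne_zero c2

end Pool.Agent.P.MP_8571ba_co
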