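import Pool.Agent.P.MP_a1177c_nt.EK.BT

/-!
Primes `p` for which `p ^ 2 + p + 1` has a large divisor `m ^ 2 + m + 1` are rare, and the sieve
bound for primes that avoid one class modulo each prime of a finite set.
-/

set_option autoImplicit false

namespace Pool.Agent.P.MP_8571ba_co

open Finset Filter
open scoped Classical

/-- The number of primes in `(x, 2 x]` with property `S`. -/
noncomputable def cnt (S : ℕ → Prop) (x : ℝ) : ℕ :=
  #{p ∈ range (⌊2 * x⌋₊ + 1) | Nat.Prime p ∧ x < ((p : ℕ) : ℝ) ∧ S p}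

theorem cnt_le_sum {ι : Type*} (S : ℕ → Prop) (T : ι → ℕ → Prop) (I : Finset ι) (x : ℝ)
    (h : ∀ p : ℕ, p.Prime → x < p → p ≤ ⌊2 * x⌋₊ → S p → ∃ i ∈ I, T i p) :
    (cnt S x : ℝ) ≤ ∑ i ∈ I, (cnt (T i) x : ℝ) := by
  have : cnt S x ≤ ∑ i ∈ I, cnt (T i) x := by
    refine le_trans (card_le_card fun p hp => ?_) card_biUnion_le
    obtain ⟨h1, h2, h3, h4⟩ := mem_filter.1 hp
    obtain ⟨i, hi, h5⟩ := h p h2 h3 (by have := mem_range.1 h1; omega) h4
    exact mem_biUnion.2 ⟨i, hi, mem_filter.2 ⟨h1, h2, h3, h5⟩⟩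
  exact_mod_cast this

theorem cnt_or (S T U : ℕ → Prop) (x : ℝ) (h : ∀ p : ℕ, p.Prime → S p → T p ∨ U p) :
    (cnt S x : ℝ) ≤ cnt T x + cnt U x := by
  have : cnt S x ≤ cnt T x + cnt U x := by
    refine le_trans (card_le_card fun p hp => ?_) (card_union_le _ _)
    obtain ⟨h1, h2, h3, h4⟩ := mem_filter.1 hp
    rcases h p h2 h4 with h5 | h5
    · exact mem_union_left _ (mem_filter.2 ⟨h1, h2, h3, h5⟩)
    · exact mem_union_right _ (mem_filter.2 ⟨h1, h2, h3, h5⟩)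
  exact_mod_cast this

theorem bt : ∃ C : ℝ, 0 < C ∧ ∀ x : ℝ, 2 ≤ x → ∀ k r : ℕ, 0 < k → (k : ℝ) ^ 2 ≤ x →
    (cnt (fun p => p ≡ r [MOD k]) x : ℝ) ≤ C / k.totient * (x / Real.log x) := by
  obtain ⟨C, hC⟩ := Pool.Agent.P.MP_a1177c_nt.EK.brun_titchmarsh
  refine ⟨|C| + 1, by positivity, fun x hx k r hk hkx => ?_⟩
  have l0 : 0 < Real.log x := Real.log_pos (by linarith)
  have f0 : (0 : ℝ) < k.totient := by exact_mod_cast Nat.totient_pos.2 hk
  refine le_trans (le_of_eq_of_le (by unfold cnt; congr) (hC x hx k r hk hkx)) ?_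
  rw [div_mul_div_comm]
  gcongr
  linarith [le_abs_self C]

theorem class_bound : ∃ C : ℝ, 0 < C ∧ ∀ x : ℝ, 2 ≤ x → ∀ k r : ℕ, 0 < k → (k : ℝ) ≤ 5 * x →
    (cnt (fun p => p ≡ r [MOD k]) x : ℝ) ≤
      C * ((1 + Real.log k) / k.totient) * (x / Real.log x) := by
  obtain ⟨C, C0, hC⟩ := bt
  refine ⟨C + 14, by positivity, fun x hx k r hk hkx => ?_⟩
  have l0 : 0 < Real.log x := Real.log_pos (by linarith)
  have f0 : (0 : ℝ) < k.totient := by exact_mod_cast Nat.totient_pos.2 hk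
  have k1 : (1 : ℝ) ≤ k := by exact_mod_cast hk
  have lk : 0 ≤ Real.log k := Real.log_nonneg k1
  rcases le_or_gt ((k : ℝ) ^ 2) x with h | h
  · refine (hC x hx k r hk h).trans ?_
    rw [← mul_div_assoc (C + 14)]
    gcongr
    nlinarith
  · have h1 := Pool.Agent.P.MP_a1177c_nt.EK.BTAux.card_le_sum ⌊2 * x⌋₊ k r
      (fun p => Nat.Prime p ∧ x < ((p : ℕ) : ℝ)) (fun _ => 1) (fun _ => zero_le_one)
      (fun _ _ => le_rfl)
    rw [sum_const, card_range, nsmul_eq_mul, mul_one] at h1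
    have h2 : (cnt (fun p => p ≡ r [MOD k]) x : ℝ) ≤ ((⌊2 * x⌋₊ / k + 1 : ℕ) : ℝ) := by
      refine le_of_eq_of_le ?_ h1
      unfold cnt
      congr 2
      ext p
      simp only [mem_filter, and_assoc]
    have h3 : ((⌊2 * x⌋₊ / k + 1 : ℕ) : ℝ) * k ≤ 7 * x := by
      have : ((⌊2 * x⌋₊ / k * k : ℕ) : ℝ) ≤ (⌊2 * x⌋₊ : ℝ) := by
        exact_mod_cast Nat.div_mul_le_self _ _
      have h4 := Nat.floor_le (show 0 ≤ 2 * x by linarith)
      push_cast at this ⊢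
      linarith
    have h4 : Real.log x ≤ 2 * Real.log k := by
      have := Real.log_le_log (by linarith) h.le
      rwa [Real.log_pow] at this
    have fk : (k.totient : ℝ) ≤ k := by exact_mod_cast Nat.totient_le k
    refine h2.trans ?_
    rw [← mul_div_assoc (C + 14), div_mul_div_comm, le_div_iff₀ (by positivity)]
    calc ((⌊2 * x⌋₊ / k + 1 : ℕ) : ℝ) * (k.totient * Real.log x)
        ≤ ((⌊2 * x⌋₊ / k + 1 : ℕ) : ℝ) * (k * (2 * Real.log k)) := by gcongr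
      _ = ((⌊2 * x⌋₊ / k + 1 : ℕ) : ℝ) * k * (2 * Real.log k) := by ring
      _ ≤ 7 * x * (2 * Real.log k) := by gcongr
      _ ≤ _ := by nlinarith [mul_nonneg C0.le lk, mul_pos C0 (show 0 < x by linarith),
          mul_nonneg (mul_nonneg C0.le lk) (show 0 ≤ x by linarith)]

theorem three_dvd {g m a b : ℤ} (hg : g = m ^ 2 + m + 1) (ha : g ∣ a * (a + 2 * m + 1))
    (hb : g ∣ b * (b + 2 * m + 1)) (h : Int.gcd g a = Int.gcd g b) : g ∣ 3 * (a - b) := by
  have g0 : 0 < g := by nlinarith [sq_nonneg (2 * m + 1)]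
  have key : ∀ c : ℤ, g ∣ c * (c + 2 * m + 1) → g / Int.gcd g c ∣ c + 2 * m + 1 := by
    intro c hc
    have d0 : 0 < Int.gcd g c := Int.gcd_pos_of_ne_zero_left _ g0.ne'
    obtain ⟨g', c', h1, h2, h3⟩ := Int.exists_gcd_one d0
    have d1 : ((Int.gcd g c : ℕ) : ℤ) ≠ 0 := by exact_mod_cast d0.ne'
    have e : g / Int.gcd g c = g' := Int.ediv_eq_of_eq_mul_left d1 h2
    rw [e]
    refine (Int.isCoprime_iff_gcd_eq_one.2 h1).dvd_of_dvd_mul_left ?_
    refine (mul_dvd_mul_iff_right d1).1 ?_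
    rw [← h2, mul_right_comm, ← h3]
    exact hc
  have h1 := key a ha
  have h2 := key b hb
  rw [← h] at h2
  obtain ⟨e, he⟩ : ((Int.gcd g a : ℕ) : ℤ) ∣ g := Int.gcd_dvd_left _ _
  have h3 : ((Int.gcd g a : ℕ) : ℤ) ∣ a := Int.gcd_dvd_right _ _
  have h4 : ((Int.gcd g a : ℕ) : ℤ) ∣ b := h ▸ Int.gcd_dvd_right _ _
  generalize ((Int.gcd g a : ℕ) : ℤ) = d at *
  have d0 : d ≠ 0 := by rintro rfl; omega
  have e1 : g / d = e := Int.ediv_eq_of_eq_mul_right d0 he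
  rw [e1] at h1 h2
  obtain ⟨u, hu⟩ := h3
  obtain ⟨w, hw⟩ := h1
  have h5 : d ∣ a - b := dvd_sub ⟨u, hu⟩ h4
  have h6 : e ∣ a - b := by
    have := dvd_sub ⟨w, hw⟩ h2
    rwa [show a + 2 * m + 1 - (b + 2 * m + 1) = a - b by ring] at this
  have h7 : 2 * m + 1 = e * w - d * u := by linarith
  have h8 : (3 : ℤ) = d * (4 * e + u * (2 * m + 1)) - e * (w * (2 * m + 1)) := by
    have : (3 : ℤ) = 4 * g - (2 * m + 1) * (2 * m + 1) := by rw [hg]; ring
    rw [this, he]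
    nth_rewrite 1 [h7]
    ring
  rw [h8, sub_mul, he]
  refine dvd_sub ?_ ?_
  · rw [mul_right_comm]; exact (mul_dvd_mul_left d h6).mul_right _
  · rw [mul_right_comm, mul_comm d e]; exact (mul_dvd_mul_left e h5).mul_right _

theorem roots_le (m : ℕ) : #{r ∈ range (m ^ 2 + m + 1) | m ^ 2 + m + 1 ∣ r ^ 2 + r + 1} ≤
    3 * #(m ^ 2 + m + 1).divisors := by
  set g := m ^ 2 + m + 1 with hg
  have g0 : 0 < g := by positivity
  have : NeZero g := ⟨g0.ne'⟩
  refine card_le_mul_card_image_of_maps_to (f := fun r : ℕ => Int.gcd g ((r : ℤ) - m))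
    (fun r _ => Nat.mem_divisors.2 ⟨by
      exact_mod_cast (Int.gcd_dvd_left (g : ℤ) ((r : ℤ) - m)), g0.ne'⟩) 3 fun d _ => ?_
  set F : Finset ℕ := ({r ∈ range g | g ∣ r ^ 2 + r + 1} : Finset ℕ).filter
    fun r : ℕ => Int.gcd g ((r : ℤ) - m) = d with hF
  rcases F.eq_empty_or_nonempty with h | ⟨r, hr⟩
  · simp [h]
  have key : ∀ s ∈ F, (g : ℤ) ∣ ((s : ℤ) - m) * ((s : ℤ) - m + 2 * m + 1) := by
    intro s hs
    have h1 : (g : ℤ) ∣ ((s ^ 2 + s + 1 : ℕ) : ℤ) :=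
      Int.natCast_dvd_natCast.2 (mem_filter.1 (mem_filter.1 hs).1).2
    have h2 := dvd_sub h1 (dvd_refl (g : ℤ))
    have e : ((s ^ 2 + s + 1 : ℕ) : ℤ) - g = ((s : ℤ) - m) * ((s : ℤ) - m + 2 * m + 1) := by
      rw [hg]; push_cast; ring
    exact e ▸ h2
  refine le_trans ?_ (IsAddCyclic.card_nsmul_eq_zero_le (α := ZMod g) (n := 3) (by norm_num))
  refine card_le_card_of_injOn (fun s : ℕ => (s : ZMod g) - r) (fun s hs => ?_) ?_
  · have h1 := three_dvd (by rw [hg]; push_cast; ring) (key s hs) (key r hr)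
      ((mem_filter.1 hs).2.trans (mem_filter.1 hr).2.symm)
    have h2 := (ZMod.intCast_zmod_eq_zero_iff_dvd _ g).2 h1
    push_cast at h2
    refine mem_coe.2 (mem_filter.2 ⟨mem_univ _, ?_⟩)
    rw [nsmul_eq_mul]
    push_cast
    linear_combination h2
  · intro s hs t ht h
    have h1 : (s : ZMod g) = t := sub_left_injective h
    exact Nat.ModEq.eq_of_lt_of_lt ((ZMod.natCast_eq_natCast_iff _ _ _).1 h1)
      (mem_range.1 (mem_filter.1 (mem_filter.1 hs).1).1)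
      (mem_range.1 (mem_filter.1 (mem_filter.1 ht).1).1)

theorem divisor_pow (k : ℕ) : ∃ C : ℕ, ∀ n : ℕ, n ≠ 0 → (#n.divisors) ^ k ≤ C * n := by
  obtain ⟨C0, hC0⟩ : ∃ C0 : ℕ, ∀ e : ℕ, (e + 1) ^ k ≤ C0 * 2 ^ e := by
    have h := (tendsto_pow_const_div_const_pow_of_one_lt k (r := 2) (by norm_num)).bddAbove_range
    obtain ⟨B, hB⟩ := h
    obtain ⟨C, hC⟩ := exists_nat_ge B
    refine ⟨C * 2, fun e => ?_⟩
    have h1 : (((e + 1 : ℕ) : ℝ)) ^ k / 2 ^ (e + 1) ≤ C := (hB ⟨e + 1, rfl⟩).trans hC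
    rw [div_le_iff₀ (by positivity), pow_succ] at h1
    have h2 : (((e + 1 : ℕ) : ℝ)) ^ k ≤ C * 2 * 2 ^ e := by linarith
    exact_mod_cast h2
  have hC1 : 1 ≤ C0 := by simpa using hC0 0
  refine ⟨C0 ^ (2 ^ k), fun n hn => ?_⟩
  rw [Nat.card_divisors hn, ← Finset.prod_pow]
  calc ∏ p ∈ n.primeFactors, (n.factorization p + 1) ^ k
      ≤ ∏ p ∈ n.primeFactors, ((if p < 2 ^ k then C0 else 1) * p ^ n.factorization p) := by
        refine Finset.prod_le_prod' fun p hp => ?_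
        have hp2 := (Nat.prime_of_mem_primeFactors hp).two_le
        split_ifs with h
        · exact (hC0 _).trans (by gcongr)
        · rw [one_mul]
          calc (n.factorization p + 1) ^ k ≤ (2 ^ n.factorization p) ^ k := by
                gcongr; exact Nat.lt_two_pow_self
            _ = (2 ^ k) ^ n.factorization p := by rw [← pow_mul, ← pow_mul, mul_comm]
            _ ≤ _ := by gcongr; omega
    _ = (∏ p ∈ n.primeFactors, if p < 2 ^ k then C0 else 1) * n := by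
        rw [Finset.prod_mul_distrib]
        congr 1
        exact Nat.prod_factorization_pow_eq_self hn
    _ ≤ _ := by
        gcongr
        rw [← Finset.prod_filter, Finset.prod_const]
        refine Nat.pow_le_pow_right hC1 ?_
        calc _ ≤ #(range (2 ^ k)) :=
              Finset.card_le_card fun p hp => mem_range.2 (mem_filter.1 hp).2
          _ = _ := card_range _

theorem le_card_mul_totient {g : ℕ} (hg : 0 < g) : g ≤ #g.divisors * g.totient := by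
  nth_rewrite 1 [← Nat.sum_totient g]
  rw [← smul_eq_mul]
  exact sum_le_card_nsmul _ _ _ fun d hd =>
    Nat.le_of_dvd (Nat.totient_pos.2 hg) (Nat.totient_dvd_of_dvd (Nat.dvd_of_mem_divisors hd))

/-- The weight of the modulus `g`. -/
noncomputable def wt (g : ℕ) : ℝ := 3 * #g.divisors * ((1 + Real.log g) / g.totient)

theorem wt_le : ∃ K : ℝ, 0 ≤ K ∧ ∀ g : ℕ, 0 < g → wt g ≤ K * (g : ℝ) ^ (-(3 / 4) : ℝ) := by
  obtain ⟨C, hC⟩ := divisor_pow 16
  refine ⟨27 * (C + 1), by positivity, fun g hg => ?_⟩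
  have g1 : (1 : ℝ) ≤ g := by exact_mod_cast hg
  have g0 : (0 : ℝ) < g := by linarith
  have f0 : (0 : ℝ) < g.totient := by exact_mod_cast Nat.totient_pos.2 hg
  set y : ℝ := (g : ℝ) ^ (1 / 8 : ℝ) with hy
  have y1 : 1 ≤ y := Real.one_le_rpow g1 (by norm_num)
  have y8 : y ^ 8 = g := by
    rw [hy, ← Real.rpow_natCast, ← Real.rpow_mul g0.le]; norm_num
  have e : (g : ℝ) ^ (-(3 / 4) : ℝ) = y ^ 2 / g := by
    rw [hy, ← Real.rpow_natCast, ← Real.rpow_mul g0.le, ← Real.rpow_sub_one g0.ne']; norm_num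
  have h1 : 1 + Real.log g ≤ 9 * y := by
    have := Real.log_le_rpow_div g0.le (show (0 : ℝ) < 1 / 8 by norm_num)
    rw [← hy] at this
    linarith
  have h2 : (#g.divisors : ℝ) ^ 2 ≤ (C + 1) * y := by
    refine le_of_pow_le_pow_left₀ (n := 8) (by norm_num) (by positivity) ?_
    have h3 : ((#g.divisors : ℕ) : ℝ) ^ 16 ≤ C * g := by exact_mod_cast hC g hg.ne'
    rw [← pow_mul, mul_pow, y8]
    refine h3.trans ?_
    gcongr
    exact (by linarith : (C : ℝ) ≤ C + 1).trans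
      (le_self_pow₀ (by linarith [Nat.cast_nonneg (α := ℝ) C]) (by norm_num))
  have h3 : (g : ℝ) ≤ #g.divisors * g.totient := by exact_mod_cast le_card_mul_totient hg
  have l0 : 0 ≤ Real.log g := Real.log_nonneg g1
  rw [wt, e, ← mul_div_assoc, ← mul_div_assoc, div_le_div_iff₀ f0 g0]
  calc 3 * (#g.divisors : ℝ) * (1 + Real.log g) * g
      ≤ 3 * (#g.divisors : ℝ) * (9 * y) * (#g.divisors * g.totient) := by gcongr
    _ = 27 * (#g.divisors : ℝ) ^ 2 * y * g.totient := by ring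
    _ ≤ 27 * ((C + 1) * y) * y * g.totient := by gcongr
    _ = _ := by ring

theorem wt_nonneg (g : ℕ) : 0 ≤ wt g := by
  have := Real.log_natCast_nonneg g
  unfold wt; positivity

theorem summable_wt : Summable fun m : ℕ => wt (m ^ 2 + m + 1) := by
  obtain ⟨K, K0, hK⟩ := wt_le
  have hs : Summable fun m : ℕ => K * (m : ℝ) ^ (-(3 / 2) : ℝ) :=
    (Real.summable_nat_rpow.2 (by norm_num)).mul_left K
  refine Summable.of_norm_bounded_eventually_nat hs ?_
  filter_upwards [eventually_gt_atTop 0] with m hm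
  rw [Real.norm_of_nonneg (wt_nonneg _)]
  refine (hK _ (by positivity)).trans (mul_le_mul_of_nonneg_left ?_ K0)
  have m0 : (0 : ℝ) < m := by exact_mod_cast hm
  have e : (m : ℝ) ^ (-(3 / 2) : ℝ) = ((m : ℝ) ^ 2) ^ (-(3 / 4) : ℝ) := by
    rw [← Real.rpow_natCast, ← Real.rpow_mul m0.le]; norm_num
  rw [e]
  refine Real.rpow_le_rpow_of_nonpos (by positivity) ?_ (by norm_num)
  push_cast; linarith

/-- Primes `p` with a large divisor `m ^ 2 + m + 1` of `p ^ 2 + p + 1` are rare. -/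
theorem countA {ε : ℝ} (hε : 0 < ε) : ∃ Y : ℕ, 1 ≤ Y ∧ ∀ x : ℝ, 2 ≤ x →
    (cnt (fun p => ∃ m : ℕ, Y < m ∧ m ^ 2 ≤ p ∧ m ^ 2 + m + 1 ∣ p ^ 2 + p + 1) x : ℝ) ≤
      ε * (x / Real.log x) := by
  obtain ⟨C, C0, hC⟩ := class_bound
  obtain ⟨s, hs⟩ := summable_iff_vanishing_norm.1 summable_wt (ε / C) (by positivity)
  refine ⟨s.sup id + 1, by omega, fun x hx => ?_⟩
  have l0 : 0 ≤ x / Real.log x := div_nonneg (by linarith) (Real.log_nonneg (by linarith))
  set I := {m ∈ Ioc (s.sup id + 1) ⌊2 * x⌋₊ | m ^ 2 ≤ ⌊2 * x⌋₊} with hI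
  have h1 := cnt_le_sum
    (fun p => ∃ m : ℕ, s.sup id + 1 < m ∧ m ^ 2 ≤ p ∧ m ^ 2 + m + 1 ∣ p ^ 2 + p + 1)
    (fun m p => m ^ 2 + m + 1 ∣ p ^ 2 + p + 1) I x fun p _ _ h3 ⟨m, h4, h5, h6⟩ =>
      ⟨m, mem_filter.2 ⟨mem_Ioc.2 ⟨h4, by nlinarith⟩, h5.trans h3⟩, h6⟩
  have h2 : ∀ m ∈ I, (cnt (fun p => m ^ 2 + m + 1 ∣ p ^ 2 + p + 1) x : ℝ) ≤
      C * wt (m ^ 2 + m + 1) * (x / Real.log x) := by
    intro m hm
    have g0 : 0 < m ^ 2 + m + 1 := by positivity
    have gx : ((m ^ 2 + m + 1 : ℕ) : ℝ) ≤ 5 * x := by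
      have a1 : ((m ^ 2 : ℕ) : ℝ) ≤ ⌊2 * x⌋₊ := by exact_mod_cast (mem_filter.1 hm).2
      have a2 : (m : ℝ) ≤ ⌊2 * x⌋₊ := by exact_mod_cast (mem_Ioc.1 (mem_filter.1 hm).1).2
      have a3 := Nat.floor_le (show 0 ≤ 2 * x by linarith)
      push_cast at a1 ⊢
      linarith
    have h3 := cnt_le_sum (fun p => m ^ 2 + m + 1 ∣ p ^ 2 + p + 1)
      (fun r p => p ≡ r [MOD m ^ 2 + m + 1])
      {r ∈ range (m ^ 2 + m + 1) | m ^ 2 + m + 1 ∣ r ^ 2 + r + 1} x fun p _ _ _ h => by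
        have hm := (Nat.mod_modEq p (m ^ 2 + m + 1))
        refine ⟨p % (m ^ 2 + m + 1), mem_filter.2 ⟨mem_range.2 (Nat.mod_lt _ g0), ?_⟩, hm.symm⟩
        exact (Nat.modEq_zero_iff_dvd).1 ((((hm.pow 2).add hm).add_right 1).trans
          (Nat.modEq_zero_iff_dvd.2 h))
    refine h3.trans ((sum_le_card_nsmul _ _ _ fun r _ => hC x hx _ r g0 gx).trans ?_)
    have h4 : (#{r ∈ range (m ^ 2 + m + 1) | m ^ 2 + m + 1 ∣ r ^ 2 + r + 1} : ℝ) ≤
        3 * #(m ^ 2 + m + 1).divisors := by exact_mod_cast roots_le m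
    have h5 := Real.log_natCast_nonneg (m ^ 2 + m + 1)
    rw [nsmul_eq_mul, wt]
    refine (mul_le_mul_of_nonneg_right h4 (by positivity)).trans (le_of_eq (by ring))
  have h3 := hs I (disjoint_left.2 fun m hm hms => by
    have := (mem_Ioc.1 (mem_filter.1 hm).1).1
    have h4 : id m ≤ s.sup id := le_sup hms
    simp only [id] at h4 this
    omega)
  rw [Real.norm_of_nonneg (sum_nonneg fun _ _ => wt_nonneg _), lt_div_iff₀ C0] at h3
  refine h1.trans ((sum_le_sum h2).trans ?_)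
  rw [← sum_mul, ← mul_sum]
  gcongr
  linarith

theorem totient_prod (L : Finset ℕ) (hL : ∀ l ∈ L, l.Prime) :
    (∏ l ∈ L, l).totient = ∏ l ∈ L, (l - 1) := by
  induction L using Finset.induction_on with
  | empty => simp
  | insert a s ha ih =>
    have h1 := hL a (mem_insert_self _ _)
    have h2 : ∀ l ∈ s, l.Prime := fun l hl => hL l (mem_insert_of_mem hl)
    rw [prod_insert ha, prod_insert ha, Nat.totient_mul, Nat.totient_prime h1, ih h2]
    exact Nat.Coprime.prod_right fun l hl =>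
      (Nat.coprime_primes h1 (h2 l hl)).2 fun e => ha (e ▸ hl)

/-- The sieve bound for a fixed finite set of primes. -/
theorem countS : ∃ C : ℝ, 0 < C ∧ ∀ (L : Finset ℕ) (c : ℕ → ℕ),
    (∀ l ∈ L, l.Prime ∧ 0 < c l ∧ c l < l) → ∀ᶠ x : ℝ in atTop,
      (cnt (fun p => ∀ l ∈ L, p % l ≠ c l) x : ℝ) ≤
        C * Real.exp (-∑ l ∈ L, 1 / (l : ℝ)) * (x / Real.log x) := by
  obtain ⟨C, C0, hC⟩ := bt
  refine ⟨C, C0, fun L c hL => ?_⟩
  set Q := ∏ l ∈ L, l with hQ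
  have Q0 : 0 < Q := prod_pos fun l hl => (hL l hl).1.pos
  set R := {r ∈ range Q | ∀ l ∈ L, r % l ≠ 0 ∧ r % l ≠ c l} with hR
  have h1 : #R ≤ ∏ l ∈ L, (l - 2) := by
    have e : #(Fintype.piFinset fun l : L => range (l : ℕ) \ {0, c l}) = ∏ l ∈ L, (l - 2) := by
      rw [Fintype.card_piFinset, ← prod_coe_sort L]
      refine prod_congr rfl fun l _ => ?_
      obtain ⟨a1, a2, a3⟩ := hL l l.2
      rw [card_sdiff_of_subset, card_range, card_pair a2.ne]
      intro y hy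
      rcases mem_insert.1 hy with rfl | hy
      · exact mem_range.2 a1.pos
      · exact mem_range.2 (mem_singleton.1 hy ▸ a3)
    rw [← e]
    refine card_le_card_of_injOn (fun r l => r % (l : ℕ)) (fun r hr => ?_) fun r hr s hs h => ?_
    · refine mem_coe.2 (Fintype.mem_piFinset.2 fun l => mem_sdiff.2
        ⟨mem_range.2 (Nat.mod_lt _ (hL l l.2).1.pos), ?_⟩)
      simpa using (mem_filter.1 hr).2 l l.2
    · refine Nat.ModEq.eq_of_lt_of_lt (m := Q) ?_ (mem_range.1 (mem_filter.1 hr).1)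
        (mem_range.1 (mem_filter.1 hs).1)
      rw [Nat.modEq_iff_dvd, Int.natCast_dvd]
      refine Finset.prod_primes_dvd _ (fun l hl => (hL l hl).1.prime) fun l hl => ?_
      rw [← Int.natCast_dvd, ← Nat.modEq_iff_dvd]
      exact congrFun h ⟨l, hl⟩
  have h2 : (#R : ℝ) ≤ Real.exp (-∑ l ∈ L, 1 / (l : ℝ)) * Q.totient := by
    rw [hQ, totient_prod L fun l hl => (hL l hl).1, ← sum_neg_distrib, Real.exp_sum]
    refine (Nat.cast_le.2 h1).trans ?_
    rw [Nat.cast_prod, Nat.cast_prod, ← prod_mul_distrib]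
    refine prod_le_prod (fun _ _ => by positivity) fun l hl => ?_
    have l2 := (hL l hl).1.two_le
    have l2' : (2 : ℝ) ≤ l := by exact_mod_cast l2
    rw [Nat.cast_sub l2, Nat.cast_sub (by omega)]
    have a1 := Real.add_one_le_exp (-(1 / (l : ℝ)))
    have a2 : (l : ℝ) - 2 ≤ (-(1 / (l : ℝ)) + 1) * (l - 1) := by
      have : (-(1 / (l : ℝ)) + 1) * (l - 1) = l - 2 + 1 / l := by field_simp; ring
      rw [this]
      have : 0 ≤ 1 / (l : ℝ) := by positivity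
      linarith
    push_cast
    exact a2.trans (mul_le_mul_of_nonneg_right a1 (by linarith))
  filter_upwards [eventually_ge_atTop 2, eventually_ge_atTop ((Q : ℝ) ^ 2)] with x hx hxQ
  have l0 : 0 ≤ x / Real.log x := div_nonneg (by linarith) (Real.log_nonneg (by linarith))
  have f0 : (0 : ℝ) < Q.totient := by exact_mod_cast Nat.totient_pos.2 Q0
  have h3 := cnt_le_sum (fun p => ∀ l ∈ L, p % l ≠ c l) (fun r p => p ≡ r [MOD Q]) R x
    fun p hp hxp _ h => by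
      refine ⟨p % Q, mem_filter.2 ⟨mem_range.2 (Nat.mod_lt _ Q0), fun l hl => ?_⟩,
        (Nat.mod_modEq p Q).symm⟩
      have hd : l ∣ Q := dvd_prod_of_mem _ hl
      rw [Nat.mod_mod_of_dvd _ hd]
      refine ⟨fun h0 => ?_, h l hl⟩
      have e := (Nat.prime_dvd_prime_iff_eq (hL l hl).1 hp).1 (Nat.dvd_of_mod_eq_zero h0)
      have a1 : p ≤ Q ^ 2 := e ▸ (Nat.le_of_dvd Q0 hd).trans (Nat.le_self_pow two_ne_zero Q)
      have a2 : (p : ℝ) ≤ (Q : ℝ) ^ 2 := by exact_mod_cast a1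
      linarith
  refine h3.trans ((sum_le_card_nsmul _ _ _ fun r _ => hC x hx _ r Q0 hxQ).trans ?_)
  rw [nsmul_eq_mul]
  refine (mul_le_mul_of_nonneg_right h2 (by positivity)).trans (le_of_eq ?_)
  field_simp

end Pool.Agent.P.MP_8571ba_co
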