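import Pool.Agent.P.MP_8571ba_co.Struct
import Pool.Agent.P.MP_8571ba_co.Count
import Pool.Agent.Lib.PNT.Main

/-!
The criterion holds for almost all primes.
-/

set_option autoImplicit false

namespace Pool.Agent.P.MP_8571ba_co

open Finset Filter Topology Pool.Agent.Lib.PNT
open scoped Classical

/-- The reciprocals of the primes in a reduced class diverge. -/
theorem div_AP {q : ℕ} [NeZero q] {a : ZMod q} (ha : IsUnit a) (B : ℕ) (T : ℝ) :
    ∃ L : Finset ℕ, (∀ l ∈ L, l.Prime ∧ B < l ∧ (l : ZMod q) = a) ∧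
      T ≤ ∑ l ∈ L, 1 / (l : ℝ) := by
  set c : ℝ := (q.totient : ℝ)⁻¹ with hc
  have c0 : 0 < c := inv_pos.2 (by exact_mod_cast Nat.totient_pos.2 (NeZero.pos q))
  have t1 := thetaAP_tendsto ha
  have t2 := (t1.comp (tendsto_id.const_mul_atTop (show (0 : ℝ) < 2 by norm_num))).const_mul 2
  have t3 := (t2.sub t1).eventually (lt_mem_nhds (show c / 2 < 2 * c - c by linarith))
  have t4 := (tendsto_pow_atTop_atTop_of_one_lt (show (1 : ℝ) < 2 by norm_num)).eventually t3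
  obtain ⟨K0, hK0⟩ := eventually_atTop.1 t4
  obtain ⟨K, hK, hBK⟩ : ∃ K, K0 ≤ K ∧ B ≤ K := ⟨max K0 B, le_max_left _ _, le_max_right _ _⟩
  set P : ℕ → Prop := fun l => l.Prime ∧ (l : ZMod q) = a with hP
  have split : ∀ (f : ℕ → ℝ) (u v w : ℕ), u ≤ v → v ≤ w →
      ∑ l ∈ (Ioc u w).filter P, f l =
        ∑ l ∈ (Ioc u v).filter P, f l + ∑ l ∈ (Ioc v w).filter P, f l := by
    intro f u v w h1 h2
    simp only [sum_filter]
    exact (sum_Ioc_consecutive _ h1 h2).symm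
  have th : ∀ k : ℕ, thetaAP a (2 ^ k) = ∑ l ∈ (Ioc 0 (2 ^ k)).filter P, Real.log l := by
    intro k
    have : ⌊(2 : ℝ) ^ k⌋₊ = 2 ^ k := by exact_mod_cast Nat.floor_natCast (R := ℝ) (2 ^ k)
    rw [thetaAP, this]
    rfl
  have block : ∀ k, K ≤ k →
      c / 4 * (1 / ((k : ℝ) + 1)) ≤ ∑ l ∈ (Ioc (2 ^ k) (2 ^ (k + 1))).filter P, 1 / (l : ℝ) := by
    intro k hk
    have h1 := hK0 k (hK.trans hk)
    simp only [Function.comp, id] at h1
    have p0 : (0 : ℝ) < 2 ^ k := by positivity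
    rw [← pow_succ', th, th, split _ 0 (2 ^ k) (2 ^ (k + 1)) (Nat.zero_le _)
      (Nat.pow_le_pow_right two_pos (Nat.le_succ k))] at h1
    have h2 : c / 2 * 2 ^ k ≤ ∑ l ∈ (Ioc (2 ^ k) (2 ^ (k + 1))).filter P, Real.log l := by
      rw [← le_div_iff₀ p0]
      refine h1.le.trans (le_of_eq ?_)
      rw [pow_succ]
      field_simp
      ring
    have h3 : ∑ l ∈ (Ioc (2 ^ k) (2 ^ (k + 1))).filter P, Real.log l ≤
        ∑ l ∈ (Ioc (2 ^ k) (2 ^ (k + 1))).filter P, 2 ^ (k + 1) * (k + 1) * (1 / (l : ℝ)) := by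
      refine sum_le_sum fun l hl => ?_
      have l0 : (0 : ℝ) < l := by exact_mod_cast (mem_filter.1 hl).2.1.pos
      have l1 : (l : ℝ) ≤ 2 ^ (k + 1) := by exact_mod_cast (mem_Ioc.1 (mem_filter.1 hl).1).2
      have l2 : Real.log l ≤ k + 1 := by
        refine (Real.log_le_log l0 l1).trans ?_
        rw [Real.log_pow]
        push_cast
        have := Real.log_two_lt_d9
        nlinarith
      rw [mul_one_div, le_div_iff₀ l0, mul_comm]
      exact mul_le_mul l1 l2 (Real.log_natCast_nonneg l) (by positivity)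
    rw [← mul_sum] at h3
    have h4 := h2.trans h3
    rw [mul_one_div, div_le_iff₀ (by positivity)]
    rw [pow_succ] at h4
    refine le_of_mul_le_mul_left ?_ (show (0 : ℝ) < 2 ^ k * 2 by positivity)
    linarith
  have ind : ∀ n : ℕ, c / 4 / (K + 1) * ∑ i ∈ range n, 1 / ((i : ℝ) + 1) ≤
      ∑ l ∈ (Ioc (2 ^ K) (2 ^ (K + n))).filter P, 1 / (l : ℝ) := by
    intro n
    induction n with
    | zero => simp
    | succ n ih =>
      rw [sum_range_succ, mul_add, split _ (2 ^ K) (2 ^ (K + n)) (2 ^ (K + (n + 1)))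
        (Nat.pow_le_pow_right two_pos (by omega)) (Nat.pow_le_pow_right two_pos (by omega))]
      refine add_le_add ih (le_trans ?_ (block (K + n) (by omega)))
      rw [div_mul_eq_mul_div, mul_div_assoc, div_div]
      gcongr
      push_cast
      nlinarith [mul_nonneg (Nat.cast_nonneg (α := ℝ) K) (Nat.cast_nonneg (α := ℝ) n)]
  obtain ⟨n, hn⟩ := ((Real.tendsto_sum_range_one_div_nat_succ_atTop.const_mul_atTop
    (show 0 < c / 4 / (K + 1) by positivity)).eventually_ge_atTop T).exists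
  refine ⟨_, fun l hl => ⟨(mem_filter.1 hl).2.1, ?_, (mem_filter.1 hl).2.2⟩, hn.trans (ind n)⟩
  have h1 := (mem_Ioc.1 (mem_filter.1 hl).1).1
  have h2 : K < 2 ^ K := Nat.lt_two_pow_self
  omega

theorem exists_residue {l e : ℕ} (hl : l.Prime) (he : e ∣ l - 1) :
    ∃ c : ℕ, 0 < c ∧ c < l ∧ orderOf (c : ZMod l) = e := by
  have : Fact l.Prime := ⟨hl⟩
  obtain ⟨g, hg⟩ := IsCyclic.exists_ofOrder_eq_natCard (α := (ZMod l)ˣ)
  rw [Nat.card_eq_fintype_card, ZMod.card_units] at hg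
  have h := orderOf_pow_orderOf_div (x := g) (orderOf_pos g).ne' (hg ▸ he)
  refine ⟨((g ^ (orderOf g / e) : (ZMod l)ˣ) : ZMod l).val,
    ZMod.val_pos.2 (Units.ne_zero _), ZMod.val_lt _, ?_⟩
  rw [ZMod.natCast_zmod_val, orderOf_units, h]

/-- Almost every prime has order `e` modulo one of finitely many primes of a given class. -/
theorem countO {e q a : ℕ} (hq : 0 < q) (heq : e ∣ q) (ha : a ≡ 1 [MOD e]) (hc : a.Coprime q)
    (B : ℕ) {ε : ℝ} (hε : 0 < ε) : ∃ L : Finset ℕ, (∀ l ∈ L, l.Prime ∧ B < l ∧ l ≡ a [MOD q]) ∧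
      ∀ᶠ x : ℝ in atTop, (cnt (fun p => ∀ l ∈ L, orderOf (p : ZMod l) ≠ e) x : ℝ) ≤
        ε * (x / Real.log x) := by
  have : NeZero q := ⟨hq.ne'⟩
  obtain ⟨C, C0, hC⟩ := countS
  obtain ⟨L, hL, hT⟩ := div_AP ((ZMod.isUnit_iff_coprime a q).2 hc) B (C / ε)
  have hL' : ∀ l ∈ L, l ≡ a [MOD q] := fun l hl =>
    (ZMod.natCast_eq_natCast_iff _ _ _).1 (hL l hl).2.2
  have hr : ∀ l : ℕ, ∃ c : ℕ, l ∈ L → 0 < c ∧ c < l ∧ orderOf (c : ZMod l) = e := by
    intro l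
    by_cases hl : l ∈ L
    · obtain ⟨c, hc⟩ := exists_residue (hL l hl).1
        ((Nat.modEq_iff_dvd' (hL l hl).1.one_le).1 (((hL' l hl).of_dvd heq).trans ha).symm)
      exact ⟨c, fun _ => hc⟩
    · exact ⟨0, fun h => absurd h hl⟩
  choose c hcl using hr
  refine ⟨L, fun l hl => ⟨(hL l hl).1, (hL l hl).2.1, hL' l hl⟩, ?_⟩
  filter_upwards [hC L c fun l hl => ⟨(hL l hl).1, (hcl l hl).1, (hcl l hl).2.1⟩,
    eventually_ge_atTop 2] with x hx x2
  have l0 : 0 ≤ x / Real.log x := div_nonneg (by linarith) (Real.log_nonneg (by linarith))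
  have h1 := cnt_le_sum (fun p => ∀ l ∈ L, orderOf (p : ZMod l) ≠ e)
    (fun (_ : Unit) p => ∀ l ∈ L, p % l ≠ c l) {()} x fun p _ _ _ h =>
      ⟨(), mem_singleton_self _, fun l hl h2 => h l hl (by
        rw [← (hcl l hl).2.2, ← h2, ZMod.natCast_mod])⟩
  rw [sum_singleton] at h1
  refine h1.trans (hx.trans (mul_le_mul_of_nonneg_right ?_ l0))
  rw [Real.exp_neg, ← div_eq_mul_inv, div_le_iff₀ (Real.exp_pos _), ← div_le_iff₀' hε]
  linarith [Real.add_one_le_exp (∑ l ∈ L, 1 / (l : ℝ))]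

theorem exists_class {e r : ℕ} (he : 0 < e) (hr : r.Prime) (h2 : ¬ 2 ∣ e → r ≠ 2) :
    ∃ a : ℕ, a ≡ 1 [MOD e] ∧ a.Coprime (e * r) ∧
      ∀ l : ℕ, 0 < l → l ≡ a [MOD e * r] → ¬ r * e ∣ l - 1 := by
  obtain ⟨t, h3, h4⟩ : ∃ t, ¬ r ∣ 1 + e * t ∧ ¬ r ∣ t := by
    by_cases h : r ∣ 1 + e * 1
    · refine ⟨2, fun h5 => ?_, fun h5 => ?_⟩
      · have h6 : r ∣ e := by
          have := Nat.dvd_sub h5 h
          rwa [show 1 + e * 2 - (1 + e * 1) = e by omega] at this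
        exact hr.one_lt.ne' (Nat.dvd_one.1 ((Nat.dvd_add_left (h6.mul_right 1)).1 h))
      · have h6 := (Nat.prime_dvd_prime_iff_eq hr Nat.prime_two).1 h5
        subst h6
        exact h2 (by omega) rfl
    · exact ⟨1, h, hr.not_dvd_one⟩
  refine ⟨1 + e * t, by simp [Nat.ModEq], Nat.Coprime.mul_right (by simp)
    ((Nat.Prime.coprime_iff_not_dvd hr).2 h3).symm, fun l hl h5 h6 => h4 ?_⟩
  rw [mul_comm] at h6
  have h7 := ((Nat.modEq_iff_dvd' hl).2 h6).trans h5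
  have h8 := (Nat.modEq_iff_dvd' (Nat.le_add_right 1 _)).1 h7
  rw [Nat.add_sub_cancel_left] at h8
  exact Nat.dvd_of_mul_dvd_mul_left he h8

/-- The exceptional primes in `(x, 2 x]` are rare. -/
theorem bad_dyadic (j : ℕ) {ε : ℝ} (hε : 0 < ε) : ∀ᶠ x : ℝ in atTop,
    (cnt (fun p => ¬ Q1 (p ^ 2 ^ j)) x : ℝ) ≤ ε * (x / Real.log x) := by
  have e0 : 0 < 3 * 2 ^ j := by positivity
  obtain ⟨Y, Y1, hY⟩ := countA (show 0 < ε / 3 by positivity)
  obtain ⟨L, hL, hL'⟩ := countO e0 dvd_rfl (Nat.ModEq.refl 1) (Nat.coprime_one_left _)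
    (3 * Y ^ 2 ^ (j + 1)) (show 0 < ε / 3 by positivity)
  set Z := L.sup id with hZ
  set I := {r ∈ range (Z + 1) | Nat.Prime r ∧ (j = 0 → r ≠ 2)} with hI
  have hr : ∀ r : ℕ, ∃ M : Finset ℕ, r ∈ I →
      (∀ l ∈ M, l.Prime ∧ 3 * Y ^ 2 ^ (j + 1) < l ∧ ¬ r * (3 * 2 ^ j) ∣ l - 1) ∧
      ∀ᶠ x : ℝ in atTop, (cnt (fun p => ∀ l ∈ M, orderOf (p : ZMod l) ≠ 3 * 2 ^ j) x : ℝ) ≤
        ε / 3 / (Z + 1) * (x / Real.log x) := by
    intro r
    by_cases h : r ∈ I
    · obtain ⟨-, h1, h2⟩ := mem_filter.1 h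
      obtain ⟨a, a1, a2, a3⟩ := exists_class e0 h1 fun h3 => h2 (by
        rcases j with _ | j
        · rfl
        · exact absurd ((dvd_pow_self 2 (Nat.succ_ne_zero j)).mul_left 3) h3)
      obtain ⟨M, hM, hM'⟩ := countO (mul_pos e0 h1.pos) (dvd_mul_right _ _) a1 a2
        (3 * Y ^ 2 ^ (j + 1)) (show 0 < ε / 3 / (Z + 1) by positivity)
      exact ⟨M, fun _ => ⟨fun l hl => ⟨(hM l hl).1, (hM l hl).2.1,
        a3 l (hM l hl).1.pos (hM l hl).2.2⟩, hM'⟩⟩
    · exact ⟨∅, fun h' => absurd h' h⟩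
  choose M hM using hr
  filter_upwards [hL', (eventually_all_finset I).2 fun r h => (hM r h).2,
    eventually_ge_atTop 2] with x h1 h2 x2
  have l0 : 0 ≤ x / Real.log x := div_nonneg (by linarith) (Real.log_nonneg (by linarith))
  have h3 := cnt_or (fun p => ¬ Q1 (p ^ 2 ^ j))
    (fun p => ∃ m : ℕ, Y < m ∧ m ^ 2 ≤ p ∧ m ^ 2 + m + 1 ∣ p ^ 2 + p + 1)
    (fun p => (∀ l ∈ L, orderOf (p : ZMod l) ≠ 3 * 2 ^ j) ∨
      ∃ r ∈ I, ∀ l ∈ M r, orderOf (p : ZMod l) ≠ 3 * 2 ^ j) x fun p hp h => by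
      by_contra hc
      simp only [not_or, not_exists, not_and, not_forall, not_not] at hc
      obtain ⟨c1, ⟨l, hl, c2⟩, c3⟩ := hc
      refine h (criterion hp Y1 c1 ⟨l, (hL l hl).1, c2⟩ fun r r1 r2 => ?_)
      by_cases h : r ∈ I
      · obtain ⟨k, hk, c4⟩ := c3 r h
        obtain ⟨k1, k2, k3⟩ := (hM r h).1 k hk
        exact ⟨k, k1, k2, c4, k3⟩
      · refine ⟨l, (hL l hl).1, (hL l hl).2.1, c2, fun hd => h ?_⟩
        have a1 := (hL l hl).1.two_le
        have a2 := Nat.le_of_dvd (by omega) ((dvd_mul_right _ _).trans hd)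
        have a3 : id l ≤ Z := le_sup hl
        simp only [id] at a3
        exact mem_filter.2 ⟨mem_range.2 (by omega), r1, r2⟩
  have h4 := cnt_or (fun p => (∀ l ∈ L, orderOf (p : ZMod l) ≠ 3 * 2 ^ j) ∨
      ∃ r ∈ I, ∀ l ∈ M r, orderOf (p : ZMod l) ≠ 3 * 2 ^ j) _ _ x fun _ _ h => h
  have h5 := cnt_le_sum (fun p => ∃ r ∈ I, ∀ l ∈ M r, orderOf (p : ZMod l) ≠ 3 * 2 ^ j)
    (fun r p => ∀ l ∈ M r, orderOf (p : ZMod l) ≠ 3 * 2 ^ j) I x fun _ _ _ _ h => h
  have h6 := sum_le_card_nsmul I _ _ h2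
  have h7 : (#I : ℝ) ≤ Z + 1 := by
    exact_mod_cast (card_filter_le _ _).trans (card_range _).le
  have h8 : #I • (ε / 3 / (Z + 1) * (x / Real.log x)) ≤ ε / 3 * (x / Real.log x) := by
    rw [nsmul_eq_mul]
    refine (mul_le_mul_of_nonneg_right h7 (by positivity)).trans (le_of_eq ?_)
    field_simp
  linarith [hY x x2]

/-- The number of primes up to `y` with property `S`. -/
noncomputable def tot (S : ℕ → Prop) (y : ℝ) : ℕ := #{p ∈ range (⌊y⌋₊ + 1) | Nat.Prime p ∧ S p}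

theorem tot_le (S : ℕ → Prop) (x : ℝ) : tot S (2 * x) ≤ tot S x + cnt S x := by
  refine le_trans (card_le_card fun p hp => ?_) (card_union_le _ _)
  obtain ⟨h1, h2, h3⟩ := mem_filter.1 hp
  rcases lt_or_ge x p with h | h
  · exact mem_union_right _ (mem_filter.2 ⟨h1, h2, h, h3⟩)
  · exact mem_union_left _ (mem_filter.2 ⟨mem_range.2 (Nat.lt_succ_of_le (Nat.le_floor h)),
      h2, h3⟩)

theorem tot_add (S : ℕ → Prop) (y : ℝ) :
    tot S y + tot (fun p => ¬ S p) y = Nat.primeCounting ⌊y⌋₊ := by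
  rw [Nat.primeCounting, Nat.primeCounting', Nat.count_eq_card_filter_range,
    ← card_filter_add_card_filter_not S, filter_filter, filter_filter]
  unfold tot
  congr

theorem tot_small {S : ℕ → Prop} (h : ∀ ε : ℝ, 0 < ε → ∀ᶠ x : ℝ in atTop,
    (cnt S x : ℝ) ≤ ε * (x / Real.log x)) (k : ℕ) :
    ∀ᶠ y : ℝ in atTop, (tot S y : ℝ) ≤ 2 * (2 / 3) ^ k * (y / Real.log y) := by
  induction k with
  | zero =>
    filter_upwards [primeCounting_tendsto.eventually (gt_mem_nhds one_lt_two),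
      eventually_gt_atTop 1] with y h1 h2
    have l0 := Real.log_pos h2
    have h3 : (tot S y : ℝ) ≤ Nat.primeCounting ⌊y⌋₊ := by
      exact_mod_cast (Nat.le_add_right _ _).trans (tot_add S y).le
    rw [div_lt_iff₀ (by linarith)] at h1
    rw [pow_zero, mul_one, ← mul_div_assoc, le_div_iff₀ l0]
    nlinarith
  | succ k ih =>
    set c : ℝ := 2 * (2 / 3) ^ k with hc
    have c0 : 0 < c := by positivity
    have t : Tendsto (fun y : ℝ => y / 2) atTop atTop := tendsto_id.atTop_div_const two_pos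
    filter_upwards [t.eventually ih, t.eventually (h (c / 9) (by positivity)),
      eventually_ge_atTop 64] with y h1 h2 h3
    have h4 : (tot S y : ℝ) ≤ tot S (y / 2) + cnt S (y / 2) := by
      have := tot_le S (y / 2)
      rw [mul_div_cancel₀ _ two_ne_zero] at this
      exact_mod_cast this
    have l1 : 6 * Real.log 2 ≤ Real.log y := by
      have := Real.log_le_log (by norm_num) (show (2 : ℝ) ^ 6 ≤ y by linarith)
      rw [Real.log_pow] at this
      exact_mod_cast this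
    have l2 := Real.log_pos one_lt_two
    have h5 : y / 2 / Real.log (y / 2) ≤ 3 / 5 * (y / Real.log y) := by
      rw [Real.log_div (by linarith) two_ne_zero, ← mul_div_assoc,
        div_le_div_iff₀ (by linarith) (by linarith)]
      nlinarith
    have h6 := mul_le_mul_of_nonneg_left h5 c0.le
    rw [pow_succ, ← mul_assoc, ← hc]
    linarith

theorem density_one {S : ℕ → Prop} (h : ∀ ε : ℝ, 0 < ε → ∀ᶠ x : ℝ in atTop,
    (cnt (fun p => ¬ S p) x : ℝ) ≤ ε * (x / Real.log x)) :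
    Tendsto (fun N : ℕ => (({p : ℕ | p ≤ N ∧ p.Prime ∧ S p}.ncard : ℕ) : ℝ) /
      Nat.primeCounting N) atTop (𝓝 1) := by
  have key : ∀ N : ℕ, {p : ℕ | p ≤ N ∧ p.Prime ∧ S p}.ncard = tot S N := by
    intro N
    rw [tot, ← Set.ncard_coe_finset, Nat.floor_natCast]
    congr 1
    ext p
    simp
  simp only [key]
  rw [Metric.tendsto_nhds]
  intro ε hε
  obtain ⟨k, hk⟩ := exists_pow_lt_of_lt_one (show 0 < ε / 4 by positivity)
    (show (2 / 3 : ℝ) < 1 by norm_num)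
  have t := tendsto_natCast_atTop_atTop (R := ℝ)
  filter_upwards [t.eventually (tot_small h k),
    t.eventually (primeCounting_tendsto.eventually (lt_mem_nhds one_half_lt_one)),
    t.eventually (eventually_gt_atTop 1)] with N h1 h2 h3
  have l0 := Real.log_pos h3
  have h4 : (tot S N : ℝ) + tot (fun p => ¬ S p) N = Nat.primeCounting N := by
    have := tot_add S N
    rw [Nat.floor_natCast] at this
    exact_mod_cast this
  rw [Nat.floor_natCast, lt_div_iff₀ (by linarith)] at h2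
  have h5 : (N : ℝ) / Real.log N < 2 * Nat.primeCounting N := by
    rw [div_lt_iff₀ l0]
    linarith
  have h6 : 0 < (N : ℝ) / Real.log N := div_pos (by linarith) l0
  have h7 : (0 : ℝ) < Nat.primeCounting N := by linarith
  have h8 : (0 : ℝ) ≤ tot (fun p => ¬ S p) N := Nat.cast_nonneg _
  rw [Real.dist_eq, div_sub_one h7.ne', abs_div, abs_of_pos h7, div_lt_iff₀ h7,
    abs_of_nonpos (by linarith)]
  nlinarith

theorem almost_all (j : ℕ) :
    Tendsto (fun N : ℕ => (({p : ℕ | p ≤ N ∧ p.Prime ∧ Q1 (p ^ 2 ^ j)}.ncard : ℕ) : ℝ) /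
      Nat.primeCounting N) atTop (𝓝 1) :=
  density_one (S := fun p => Q1 (p ^ 2 ^ j)) fun _ hε => bad_dyadic j hε

end Pool.Agent.P.MP_8571ba_co
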