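import Pool.Agent.P.MP_8571ba_co.Alg

/-!
The multiplier group of a cyclic planar difference set of order `p ^ 2 ^ j` under arithmetic
conditions on `p`.
-/

set_option autoImplicit false

namespace Pool.Agent.P.MP_8571ba_co

open Finset

/-- The statement of the problem for one order `n`. -/
def Q1 (n : ℕ) : Prop :=
  ∀ D : Finset (ZMod (n ^ 2 + n + 1)),
    D.card = n + 1 →
    (∀ x : ZMod (n ^ 2 + n + 1), x ≠ 0 →
      ∃! q : ZMod (n ^ 2 + n + 1) × ZMod (n ^ 2 + n + 1),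
        q.1 ∈ D ∧ q.2 ∈ D ∧ q.1 - q.2 = x) →
    {t : (ZMod (n ^ 2 + n + 1))ˣ |
        ∃ s : ZMod (n ^ 2 + n + 1),
          D.image (fun d => (t : ZMod (n ^ 2 + n + 1)) * d) = D.image (fun d => d + s)}
      = ((Subgroup.closure
          {u : (ZMod (n ^ 2 + n + 1))ˣ |
            ∃ p : ℕ, p.Prime ∧ p ∣ n ∧
              (u : ZMod (n ^ 2 + n + 1)) = (p : ZMod (n ^ 2 + n + 1))}) :
          Set (ZMod (n ^ 2 + n + 1))ˣ)

variable {v : ℕ} [NeZero v] {D : Finset (ZMod v)}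

/-- Multiplication by `t`. -/
def mulG (t : ZMod v) : ZMod v →+ ZMod v := AddMonoidHom.mulLeft t

omit [NeZero v] in
theorem mulG_apply (t x : ZMod v) : mulG t x = t * x := rfl

theorem mul_mem_sub (H : AddSubgroup (ZMod v)) (t : ZMod v) {x : ZMod v} (hx : x ∈ H) :
    t * x ∈ H := by
  rw [← ZMod.natCast_zmod_val t, ← nsmul_eq_mul]
  exact H.nsmul_mem hx _

omit [NeZero v] in
theorem pow_mul_mem {u : ZMod v} (hu : ∀ d ∈ D, u * d ∈ D) (k : ℕ) : ∀ d ∈ D, u ^ k * d ∈ D := by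
  induction k with
  | zero => simp
  | succ k ih => intro d hd; rw [pow_succ', mul_assoc]; exact hu _ (ih d hd)

theorem chain (hD : IsPDS D) {u : ZMod v} (hu : ∀ d ∈ D, u * d ∈ D) {H : AddSubgroup (ZMod v)}
    (hH : Closed D H) (i : ℕ) :
    ∃ s ≤ i, ord D (H ⊓ fixG (mulG (u ^ 2 ^ i))) = ord D (H ⊓ fixG (mulG u)) ^ 2 ^ s := by
  induction i with
  | zero => exact ⟨0, le_rfl, by simp⟩
  | succ i ih =>
    obtain ⟨s, hs, e⟩ := ih
    have sq : ∀ x, u ^ 2 ^ (i + 1) * x = u ^ 2 ^ i * (u ^ 2 ^ i * x) := fun x => by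
      rw [pow_succ, pow_mul]; ring
    have hb := baer hD (hH.inf (closed_fixG hD (σ := mulG (u ^ 2 ^ (i + 1)))
      (pow_mul_mem hu _))) (σ := mulG (u ^ 2 ^ i)) (pow_mul_mem hu _)
      (fun x hx => mul_mem_sub _ _ hx) (fun x hx => (sq x).symm.trans hx.2)
    have e2 : H ⊓ fixG (mulG (u ^ 2 ^ (i + 1))) ⊓ fixG (mulG (u ^ 2 ^ i)) =
        H ⊓ fixG (mulG (u ^ 2 ^ i)) := by
      rw [inf_assoc]
      congr 1
      refine inf_eq_right.2 fun x hx => ?_
      rw [mem_fixG, mulG_apply] at hx ⊢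
      rw [sq, hx, hx]
    rw [e2, e] at hb
    rcases hb with hb | hb
    · exact ⟨s, by omega, hb⟩
    · exact ⟨s + 1, by omega, by rw [hb, ← pow_mul, ← pow_succ]⟩

omit [NeZero v] in
theorem cube_eq_one {n : ℕ} (hv : v = n ^ 2 + n + 1) : (n : ZMod v) ^ 3 = 1 := by
  have h : ((n ^ 2 + n + 1 : ℕ) : ZMod v) = 0 := by rw [← hv]; exact ZMod.natCast_self v
  push_cast at h
  linear_combination ((n : ZMod v) - 1) * h

section Main

variable {p j : ℕ}

theorem fix_top (hv : v = (p ^ 2 ^ j) ^ 2 + p ^ 2 ^ j + 1) :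
    fixG (mulG (((p : ZMod v) ^ 3) ^ 2 ^ j)) = ⊤ := by
  refine eq_top_iff.2 fun x _ => ?_
  have h := cube_eq_one hv
  push_cast at h
  rw [mem_fixG, mulG_apply, ← pow_mul, mul_comm 3, pow_mul, h, one_mul]

theorem ord_base (hp : 2 ≤ p) (hv : v = (p ^ 2 ^ j) ^ 2 + p ^ 2 ^ j + 1) (hD : IsPDS D)
    (hc : #D = p ^ 2 ^ j + 1) (hu : ∀ d ∈ D, (p : ZMod v) * d ∈ D) :
    ord D (fixG (mulG ((p : ZMod v) ^ 3))) = p := by
  classical
  obtain ⟨s, hs, e⟩ := chain hD (pow_mul_mem hu 3) closed_top j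
  rw [fix_top hv, top_inf_eq, top_inf_eq, ord_top, hc] at e
  set μ := ord D (fixG (mulG ((p : ZMod v) ^ 3))) with hμ
  have h1 : -1 ≤ μ := neg_one_le_ord _
  have hp' : (2 : ℤ) ≤ p := by exact_mod_cast hp
  have e1 : ((p : ℤ) ^ 2 ^ (j - s)) ^ 2 ^ s = μ ^ 2 ^ s := by
    rw [← pow_mul, ← pow_add, Nat.sub_add_cancel hs, ← e]; push_cast; ring
  have e2 : (p : ℤ) ^ 2 ^ (j - s) = |μ| := by
    refine (pow_left_inj₀ (by positivity) (abs_nonneg _) (n := 2 ^ s) (by positivity)).1 ?_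
    rw [← abs_pow, ← e1, abs_of_nonneg (by positivity)]
  have e3 : (p : ℤ) ≤ (p : ℤ) ^ 2 ^ (j - s) := le_self_pow₀ (by linarith) (by positivity)
  have e4 : |μ| = μ := by
    rcases abs_cases μ with h | h
    · exact h.1
    · omega
  have c1 := (closed_fixG hD (σ := mulG ((p : ZMod v) ^ 3)) (pow_mul_mem hu 3)).card hD
  have p3 : 1 < p ^ 3 := Nat.one_lt_pow (by norm_num) hp
  have c2 : Nat.card (fixG (mulG ((p : ZMod v) ^ 3))) ≤ p ^ 3 - 1 := by
    refine le_trans ?_ (IsAddCyclic.card_nsmul_eq_zero_le (α := ZMod v) (n := p ^ 3 - 1) (by omega))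
    rw [card_eq_filter]
    refine card_le_card fun x hx => mem_filter.2 ⟨mem_univ _, ?_⟩
    have hx' : (p : ZMod v) ^ 3 * x = x := (mem_filter.1 hx).2
    rw [nsmul_eq_mul, Nat.cast_sub p3.le]
    push_cast
    rw [sub_mul, hx', one_mul, sub_self]
  have c3 : μ ^ 2 + μ + 1 ≤ (p : ℤ) ^ 3 - 1 := by
    rw [← c1]
    have : ((p ^ 3 - 1 : ℕ) : ℤ) = (p : ℤ) ^ 3 - 1 := by rw [Nat.cast_sub p3.le]; push_cast; rfl
    rw [← this]; exact_mod_cast c2
  rcases Nat.eq_zero_or_pos (j - s) with h | h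
  · rw [h] at e2; simp at e2; rw [← e4, e2]
  · exfalso
    have h2 : (p : ℤ) ^ 2 ≤ (p : ℤ) ^ 2 ^ (j - s) :=
      pow_le_pow_right₀ (by linarith) (Nat.le_self_pow h.ne' 2)
    rw [e2, e4] at h2
    have h3 : ((p : ℤ) ^ 2) ^ 2 ≤ μ ^ 2 := pow_le_pow_left₀ (by positivity) h2 2
    nlinarith [sq_nonneg (p : ℤ), pow_pos (show (0 : ℤ) < p by linarith) 3]

/-- A proper closed subgroup has order prime to every large prime of maximal order. -/
theorem no_big {Y l : ℕ} (hp : 2 ≤ p) (hv : v = (p ^ 2 ^ j) ^ 2 + p ^ 2 ^ j + 1) (hD : IsPDS D)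
    (hc : #D = p ^ 2 ^ j + 1) (hu : ∀ d ∈ D, (p : ZMod v) * d ∈ D) (hY : 1 ≤ Y)
    (hA : ∀ m : ℕ, Y < m → m ^ 2 ≤ p → ¬ m ^ 2 + m + 1 ∣ p ^ 2 + p + 1)
    (hl : 3 * Y ^ 2 ^ (j + 1) < l) (ho : orderOf (p : ZMod l) = 3 * 2 ^ j)
    {H : AddSubgroup (ZMod v)} (hH : Closed D H) (hne : H ≠ ⊤) : ¬ l ∣ Nat.card H := by
  intro hdvd
  obtain ⟨s, hs, e⟩ := chain hD (pow_mul_mem hu 3) hH j
  rw [fix_top hv, inf_top_eq] at e
  set F := fixG (mulG ((p : ZMod v) ^ 3)) with hF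
  have hFc : Closed D F := closed_fixG hD (pow_mul_mem hu 3)
  have hFo : ord D F = p := ord_base hp hv hD hc hu
  set μ := ord D (H ⊓ F) with hμ
  have c1 := hH.card hD
  have h1 : -1 ≤ μ := neg_one_le_ord _
  rcases le_or_gt μ Y with h | h
  · have hY' : (1 : ℤ) ≤ Y := by exact_mod_cast hY
    have a1 : |μ| ≤ Y := abs_le.2 ⟨by linarith, h⟩
    have a2 : |ord D H| ≤ (Y : ℤ) ^ 2 ^ j := by
      rw [e, abs_pow]
      exact (pow_le_pow_left₀ (abs_nonneg _) a1 _).trans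
        (pow_le_pow_right₀ hY' (Nat.pow_le_pow_right two_pos hs))
    have a3 : (1 : ℤ) ≤ (Y : ℤ) ^ 2 ^ j := one_le_pow₀ hY'
    have a4 : (l : ℤ) ≤ Nat.card H := by exact_mod_cast Nat.le_of_dvd Nat.card_pos hdvd
    have a5 : 3 * ((Y : ℤ) ^ 2 ^ j) ^ 2 < l := by
      rw [← pow_mul, ← pow_succ]; exact_mod_cast hl
    obtain ⟨a6, a7⟩ := abs_le.1 a2
    nlinarith [sq_le_sq' a6 a7]
  · obtain ⟨m, hm⟩ := Int.eq_ofNat_of_zero_le (show 0 ≤ μ by omega)
    have hle : F ≤ H := by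
      by_contra hn
      obtain ⟨x, hxF, hxH⟩ := SetLike.not_le_iff_exists.1 hn
      have b1 := bruck hD (hH.inf hFc) hFc inf_le_right hxF (fun hx => hxH hx.1) (by omega)
      have b2 := AddSubgroup.card_dvd_of_le (inf_le_right : H ⊓ F ≤ F)
      have b3 := (hH.inf hFc).card hD
      have b4 := hFc.card hD
      rw [← hμ, hm] at b1 b3
      rw [hFo] at b1 b4
      refine hA m (by omega) (by exact_mod_cast b1) ?_
      have e3 : Nat.card (H ⊓ F : AddSubgroup (ZMod v)) = m ^ 2 + m + 1 := by exact_mod_cast b3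
      have e4 : Nat.card F = p ^ 2 + p + 1 := by exact_mod_cast b4
      rwa [e3, e4] at b2
    have e5 : μ = p := by rw [hμ, inf_eq_right.2 hle, hFo]
    rw [e, e5] at c1
    have e6 : Nat.card H = (p ^ 2 ^ s) ^ 2 + p ^ 2 ^ s + 1 := by exact_mod_cast c1
    rcases hs.lt_or_eq with hs | rfl
    · have d1 : (((p ^ 2 ^ s) ^ 2 + p ^ 2 ^ s + 1 : ℕ) : ZMod l) = 0 :=
        (ZMod.natCast_eq_zero_iff _ _).2 (e6 ▸ hdvd)
      push_cast at d1
      have d2 : (p : ZMod l) ^ (3 * 2 ^ s) = 1 := by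
        rw [mul_comm, pow_mul]
        linear_combination ((p : ZMod l) ^ 2 ^ s - 1) * d1
      have d3 := Nat.le_of_dvd (by positivity) (orderOf_dvd_of_pow_eq_one d2)
      have d4 : 2 ^ s < 2 ^ j := Nat.pow_lt_pow_right one_lt_two hs
      omega
    · exact hne (AddSubgroup.eq_top_of_card_eq _ (by rw [e6, Nat.card_zmod, hv]))

omit [NeZero v] in
theorem dvd_of_order {l : ℕ} (hl : l.Prime) (hv : v = (p ^ 2 ^ j) ^ 2 + p ^ 2 ^ j + 1)
    (ho : orderOf (p : ZMod l) = 3 * 2 ^ j) : l ∣ v := by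
  have := Fact.mk hl
  rw [← ZMod.natCast_eq_zero_iff, hv]
  push_cast
  have h1 : ((p : ZMod l) ^ 2 ^ j) ^ 3 = 1 := by
    rw [← pow_mul, mul_comm, ← ho, pow_orderOf_eq_one]
  have h2 : (p : ZMod l) ^ 2 ^ j - 1 ≠ 0 := fun h => by
    have d3 := Nat.le_of_dvd (by positivity) (orderOf_dvd_of_pow_eq_one (sub_eq_zero.1 h))
    have : 0 < 2 ^ j := by positivity
    omega
  refine (mul_eq_zero.1 ?_).resolve_left h2
  linear_combination h1

/-- The units that map `D` into itself. -/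
def stab (D : Finset (ZMod v)) : Subgroup (ZMod v)ˣ where
  carrier := {t | ∀ d ∈ D, (t : ZMod v) * d ∈ D}
  one_mem' := by simp
  mul_mem' := fun {a b} ha hb d hd => by
    rw [Units.val_mul, mul_assoc]; exact ha _ (hb d hd)
  inv_mem' := fun {a} ha d hd => by
    have h := pow_mul_mem ha (orderOf a - 1) d hd
    have e : a⁻¹ = a ^ (orderOf a - 1) := by
      rw [inv_eq_iff_mul_eq_one, ← pow_succ', Nat.sub_add_cancel (orderOf_pos a),
        pow_orderOf_eq_one]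
    rwa [e, Units.val_pow_eq_pow_val]

theorem card_stab_dvd {Y l : ℕ} (hp : 2 ≤ p) (hv : v = (p ^ 2 ^ j) ^ 2 + p ^ 2 ^ j + 1)
    (hD : IsPDS D) (hc : #D = p ^ 2 ^ j + 1) (hu : ∀ d ∈ D, (p : ZMod v) * d ∈ D) (hY : 1 ≤ Y)
    (hA : ∀ m : ℕ, Y < m → m ^ 2 ≤ p → ¬ m ^ 2 + m + 1 ∣ p ^ 2 + p + 1) (hlp : l.Prime)
    (hl : 3 * Y ^ 2 ^ (j + 1) < l) (ho : orderOf (p : ZMod l) = 3 * 2 ^ j) :
    Nat.card (stab D) ∣ l - 1 := by
  have := Fact.mk hlp
  have hlv := dvd_of_order hlp hv ho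
  have hinj : Function.Injective ((ZMod.unitsMap hlv).comp (stab D).subtype) := by
    rw [injective_iff_map_eq_one]
    intro t ht
    by_contra hne
    have htop : fixG (mulG ((t : (ZMod v)ˣ) : ZMod v)) ≠ ⊤ := fun h => hne (by
      have : (1 : ZMod v) ∈ fixG (mulG ((t : (ZMod v)ˣ) : ZMod v)) := h ▸ AddSubgroup.mem_top _
      rw [mem_fixG, mulG_apply, mul_one] at this
      exact Subtype.ext (Units.ext this))
    refine no_big hp hv hD hc hu hY hA hl ho (closed_fixG hD (σ := mulG _) t.2) htop ?_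
    obtain ⟨w, hw⟩ := hlv
    have w0 : 0 < w := Nat.pos_of_ne_zero fun h => NeZero.ne v (by rw [hw, h, mul_zero])
    have h1 : (((t : (ZMod v)ˣ) : ZMod v).val : ZMod l) = ((1 : ℕ) : ZMod l) := by
      have := congrArg Units.val ht
      simpa [ZMod.unitsMap_def] using this
    have h2 := ((ZMod.natCast_eq_natCast_iff _ _ _).1 h1).mul_right' w
    rw [← hw, ← ZMod.natCast_eq_natCast_iff] at h2
    have h3 : (w : ZMod v) ∈ fixG (mulG ((t : (ZMod v)ˣ) : ZMod v)) := by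
      rw [mem_fixG, mulG_apply]
      simpa using h2
    have h4 := AddSubgroup.addOrderOf_dvd_natCard _ h3
    rw [ZMod.addOrderOf_coe _ (NeZero.ne v)] at h4
    have h5 : v / v.gcd w = l := by
      rw [hw, Nat.gcd_mul_left_left, Nat.mul_div_cancel _ w0]
    rwa [h5] at h4
  have h := Subgroup.card_dvd_of_injective _ hinj
  rwa [Nat.card_eq_fintype_card (α := (ZMod l)ˣ), ZMod.card_units] at h

theorem card_stab_odd (hp : p.Prime) (hv : v = p ^ 2 + p + 1) (hD : IsPDS D) (hc : #D = p + 1) :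
    ¬ 2 ∣ Nat.card (stab D) := by
  intro h
  obtain ⟨t, ht⟩ := exists_prime_orderOf_dvd_card' 2 h
  have h1 : ((t : (ZMod v)ˣ) : ZMod v) * ((t : (ZMod v)ˣ) : ZMod v) = 1 := by
    have := pow_orderOf_eq_one t
    rw [ht, pow_two] at this
    exact congrArg (fun x : stab D => ((x : (ZMod v)ˣ) : ZMod v)) this
  have hb := baer hD closed_top (σ := mulG ((t : (ZMod v)ˣ) : ZMod v)) t.2 (fun _ _ => trivial)
    (fun x _ => by rw [mulG_apply, mulG_apply, ← mul_assoc, h1, one_mul])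
  rw [top_inf_eq, ord_top, hc] at hb
  have c1 := (closed_fixG hD (σ := mulG ((t : (ZMod v)ˣ) : ZMod v)) t.2).card hD
  rcases hb with hb | hb
  · have e : ord D (fixG (mulG ((t : (ZMod v)ˣ) : ZMod v))) = p := by rw [← hb]; push_cast; ring
    rw [e] at c1
    have e2 : fixG (mulG ((t : (ZMod v)ˣ) : ZMod v)) = ⊤ :=
      AddSubgroup.eq_top_of_card_eq _ (by
        rw [Nat.card_zmod]; exact Eq.trans (by exact_mod_cast c1) hv.symm)
    have : (1 : ZMod v) ∈ fixG (mulG ((t : (ZMod v)ˣ) : ZMod v)) := e2 ▸ AddSubgroup.mem_top _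
    rw [mem_fixG, mulG_apply, mul_one] at this
    have e3 : t = 1 := Subtype.ext (Units.ext this)
    rw [e3, orderOf_one] at ht
    omega
  · refine hp.prime.irreducible.not_isSquare ⟨(ord D (fixG (mulG ((t : (ZMod v)ˣ) : ZMod v)))).natAbs, ?_⟩
    zify
    rw [abs_mul_abs_self, ← pow_two, ← hb]; push_cast; ring

end Main

section Norm

variable {n : ℕ}

omit [NeZero v] in
theorem IsPDS.translate (hD : IsPDS D) (c : ZMod v) : IsPDS (D.image fun d => d + c) := by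
  intro x hx
  obtain ⟨a, ha, b, hb, hab⟩ := hD.ex hx
  refine ⟨(a + c, b + c), ⟨mem_image_of_mem _ ha, mem_image_of_mem _ hb, by simpa using hab⟩, ?_⟩
  rintro ⟨y, z⟩ ⟨hy, hz, hyz⟩
  obtain ⟨a', ha', rfl⟩ := mem_image.1 hy
  obtain ⟨b', hb', rfl⟩ := mem_image.1 hz
  obtain ⟨e1, e2⟩ := hD.uniq ha hb ha' hb' (sub_ne_zero.1 (hab ▸ hx)) (by
    rw [hab]; simpa using hyz.symm)
  rw [e1, e2]

/-- For the translate with sum zero, multipliers are the units that fix the set. -/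
theorem mul_iff (hv : v = n ^ 2 + n + 1) (hc : #D = n + 1) (t : (ZMod v)ˣ) :
    (∃ s, D.image (fun d => (t : ZMod v) * d) = D.image (fun d => d + s)) ↔
      t ∈ stab (D.image fun d => d + (n : ZMod v) * ∑ d ∈ D, d) := by
  have h0 : ((n ^ 2 + n + 1 : ℕ) : ZMod v) = 0 := by rw [← hv]; exact ZMod.natCast_self v
  push_cast at h0
  have inj : Function.Injective fun d : ZMod v => (t : ZMod v) * d :=
    t.isUnit.mul_right_injective
  set S := ∑ d ∈ D, d with hS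
  constructor
  · rintro ⟨s, hs⟩ x hx
    obtain ⟨d, hd, rfl⟩ := mem_image.1 hx
    have h1 : ∑ x ∈ D.image (fun d => (t : ZMod v) * d), x =
        ∑ x ∈ D.image (fun d => d + s), x := by rw [hs]
    rw [sum_image inj.injOn, sum_image (add_left_injective s).injOn, ← mul_sum, sum_add_distrib,
      sum_const, hc, nsmul_eq_mul, ← hS] at h1
    push_cast at h1
    obtain ⟨d', hd', e⟩ := mem_image.1 (hs ▸ mem_image_of_mem (fun d => (t : ZMod v) * d) hd)
    refine mem_image.2 ⟨d', hd', ?_⟩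
    linear_combination e - (n : ZMod v) * h1 - s * h0
  · intro ht
    refine ⟨n * S - t * (n * S), eq_of_subset_of_card_le (fun x hx => ?_) ?_⟩
    · obtain ⟨d, hd, rfl⟩ := mem_image.1 hx
      obtain ⟨d', hd', e⟩ := mem_image.1 (ht _ (mem_image_of_mem _ hd))
      refine mem_image.2 ⟨d', hd', ?_⟩
      linear_combination e
    · rw [card_image_of_injective _ inj, card_image_of_injective _ (add_left_injective _)]

/-- The multiplier theorem of Hall. -/
theorem hall {p : ℕ} (hp : p.Prime) (hn : p ∣ n) (hn0 : 0 < n) (hD : IsPDS D) (hc : #D = n + 1)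
    (t : (ZMod v)ˣ) (ht : (t : ZMod v) = p) :
    ∃ s, D.image (fun d => (t : ZMod v) * d) = D.image (fun d => d + s) := by
  have inj : Function.Injective fun d : ZMod v => (t : ZMod v) * d :=
    t.isUnit.mul_right_injective
  obtain ⟨g, hg⟩ := blocking hD (E := D.image (fun d => (t : ZMod v) * d))
    (card_image_of_injective _ inj) (by omega) fun g => by
      obtain ⟨d, hd, h⟩ := meets hD hp (by
        rw [hc]; push_cast; rw [(ZMod.natCast_eq_zero_iff _ _).2 hn, zero_add]) g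
      exact ⟨_, mem_image_of_mem _ hd, by rwa [ht, ← nsmul_eq_mul]⟩
  exact ⟨g, hg.trans (Finset.ext fun x => by simp only [mem_image])⟩

end Norm

/-- The arithmetic criterion. -/
theorem criterion {p j Y : ℕ} (hp : p.Prime) (hY : 1 ≤ Y)
    (hA : ∀ m : ℕ, Y < m → m ^ 2 ≤ p → ¬ m ^ 2 + m + 1 ∣ p ^ 2 + p + 1)
    (hB0 : ∃ l : ℕ, l.Prime ∧ orderOf (p : ZMod l) = 3 * 2 ^ j)
    (hB : ∀ r : ℕ, r.Prime → (j = 0 → r ≠ 2) → ∃ l : ℕ, l.Prime ∧ 3 * Y ^ 2 ^ (j + 1) < l ∧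
      orderOf (p : ZMod l) = 3 * 2 ^ j ∧ ¬ r * (3 * 2 ^ j) ∣ l - 1) : Q1 (p ^ 2 ^ j) := by
  intro D hc hD
  obtain ⟨v, hv⟩ : ∃ v, v = (p ^ 2 ^ j) ^ 2 + p ^ 2 ^ j + 1 := ⟨_, rfl⟩
  revert D
  rw [← hv]
  intro D hc hD
  have : NeZero v := ⟨by rw [hv]; positivity⟩
  have pn : p ∣ p ^ 2 ^ j := dvd_pow_self p (by positivity)
  have cop : p.Coprime v := by
    rw [hv, hp.coprime_iff_not_dvd]
    intro h
    exact hp.one_lt.ne' (Nat.dvd_one.1 ((Nat.dvd_add_right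
      (dvd_add (dvd_pow pn two_ne_zero) pn)).1 h))
  set u := ZMod.unitOfCoprime p cop with hu
  have hu' : (u : ZMod v) = p := rfl
  set D' := D.image fun d => d + ((p ^ 2 ^ j : ℕ) : ZMod v) * ∑ d ∈ D, d with hD'
  have hP : IsPDS D' := IsPDS.translate hD _
  have hc' : #D' = p ^ 2 ^ j + 1 := by rw [card_image_of_injective _ (add_left_injective _), hc]
  have um : u ∈ stab D' :=
    (mul_iff hv hc u).1 (hall hp pn (pow_pos hp.pos _) hD hc u hu')
  have e1 : {u : (ZMod v)ˣ | ∃ q : ℕ, q.Prime ∧ q ∣ p ^ 2 ^ j ∧ (u : ZMod v) = (q : ZMod v)} =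
      {u} := by
    ext w
    constructor
    · rintro ⟨q, hq, h1, h2⟩
      rw [(Nat.prime_dvd_prime_iff_eq hq hp).1 (hq.dvd_of_dvd_pow h1)] at h2
      exact Units.ext h2
    · rintro rfl
      exact ⟨p, hp, pn, rfl⟩
  have ou : orderOf u = 3 * 2 ^ j := by
    obtain ⟨l, hl, ho⟩ := hB0
    refine Nat.dvd_antisymm (orderOf_dvd_of_pow_eq_one (Units.ext ?_)) ?_
    · have h := cube_eq_one hv
      push_cast at h
      rw [Units.val_pow_eq_pow_val, hu', mul_comm, pow_mul, h, Units.val_one]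
    · have h := orderOf_map_dvd (ZMod.castHom (dvd_of_order hl hv ho) (ZMod l)).toMonoidHom
        (u : ZMod v)
      rw [orderOf_units] at h
      rw [← ho]
      simpa [hu'] using h
  have le : Subgroup.zpowers u ≤ stab D' := (Subgroup.zpowers_le_of_mem um)
  have dv := Subgroup.card_dvd_of_le le
  rw [Nat.card_zpowers, ou] at dv
  obtain ⟨k, hk⟩ := dv
  have k1 : k = 1 := by
    by_contra hne
    obtain ⟨r, hr, hrk⟩ := Nat.exists_prime_and_dvd hne
    have h2 : j = 0 → r ≠ 2 := by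
      rintro rfl rfl
      refine card_stab_odd hp (by simpa using hv) hP (by simpa using hc') ?_
      rw [hk]; exact hrk.mul_left _
    obtain ⟨l, h3, h4, h5, h6⟩ := hB r hr h2
    refine h6 (Dvd.dvd.trans ?_ (card_stab_dvd hp.two_le hv hP hc' um hY hA h3 h4 h5))
    rw [hk, mul_comm r]
    exact Nat.mul_dvd_mul_left _ hrk
  have eq : Subgroup.zpowers u = stab D' :=
    Subgroup.eq_of_le_of_card_ge le (by rw [Nat.card_zpowers, ou, hk, k1, mul_one])
  rw [e1, ← Subgroup.zpowers_eq_closure, eq]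
  ext t
  exact mul_iff hv hc t

end Pool.Agent.P.MP_8571ba_co
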